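import Pool.Agent.Lib.MP_6e8fef_lc.Trees
import Pool.Agent.Lib.StackLang.Macros

/-!
# The codes of formulas and of games
-/

set_option autoImplicit false

namespace Pool.Agent.Lib.MP_6e8fef_lc

open Pool.Agent.Lib.StackLang

/-- The number `k` in unary. -/
def un (k : ℕ) : List Bool := List.replicate k true ++ [false]

theorem un_inj {a b : ℕ} {x y : List Bool} (h : un a ++ x = un b ++ y) : a = b ∧ x = y := by
  induction a generalizing b with
  | zero =>
    cases b with
    | zero => exact ⟨rfl, by simpa [un] using h⟩
    | succ b => simp [un, List.replicate_succ] at h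
  | succ a ih =>
    cases b with
    | zero => simp [un, List.replicate_succ] at h
    | succ b =>
      have h2 : un a ++ x = un b ++ y := by
        simpa [un, List.replicate_succ] using h
      obtain ⟨h3, h4⟩ := ih h2
      exact ⟨by rw [h3], h4⟩

/-- The code of a tree: the out-degrees of its vertices in unary, in depth first order. -/
def Tree.code : Tree → List Bool
  | .node n c => un n ++ (List.ofFn fun i => (c i).code).flatten

/-- A game is a tree with a question vector. -/
abbrev Game : Type := Tree × List ℕ

/-- The code of a game: the code of the tree, the number of rounds in unary, and the numbers of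
questions in unary. -/
def encG (g : Game) : List Bool := g.1.code ++ un g.2.length ++ (g.2.map un).flatten

/-- A formula in conjunctive normal form with `N ≥ 2` variables and `n ≥ 1` clauses; the clause
`S c` is the set of the pairs `(j, b)` such that the literal `x_j = b` occurs in it. -/
structure CNF : Type where
  /-- the number of variables -/
  N : ℕ
  /-- the number of clauses -/
  n : ℕ
  /-- there are at least two variables -/
  two_le : 2 ≤ N
  /-- there is at least one clause -/
  one_le : 1 ≤ n
  /-- the clauses -/
  S : Fin n → Finset (Fin N × Bool)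

/-- The formula is satisfiable. -/
def CNF.Sat (F : CNF) : Prop := ∃ α : Fin F.N → Bool, ∀ c, ∃ j, (j, α j) ∈ F.S c

/-- The occurrences of the literal `x_j = b` in the clauses. -/
def bits {N n : ℕ} (S : Fin n → Finset (Fin N × Bool)) (j : Fin N) (b : Bool) : List Bool :=
  List.ofFn fun i => decide ((j, b) ∈ S i)

/-- The code of a formula: the numbers of variables and of clauses in unary, and the incidence
matrix of literals and clauses. -/
def encF (F : CNF) : List Bool :=
  un F.N ++ un F.n ++ (List.ofFn fun j => bits F.S j true ++ bits F.S j false).flatten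

/-! ### The codes are injective -/

theorem flat_code_inj {n : ℕ} (c c' : Fin n → Tree)
    (ih : ∀ i, ∀ (t' : Tree) (r r' : List Bool), (c i).code ++ r = t'.code ++ r' →
      c i = t' ∧ r = r') (r r' : List Bool)
    (h : (List.ofFn fun i => (c i).code).flatten ++ r =
      (List.ofFn fun i => (c' i).code).flatten ++ r') : c = c' ∧ r = r' := by
  induction n with
  | zero => exact ⟨funext fun i => i.elim0, by simpa using h⟩
  | succ n ihn =>
    rw [List.ofFn_succ, List.ofFn_succ, List.flatten_cons, List.flatten_cons,
      List.append_assoc, List.append_assoc] at h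
    obtain ⟨h1, h2⟩ := ih 0 _ _ _ h
    obtain ⟨h3, h4⟩ := ihn (fun i => c i.succ) (fun i => c' i.succ) (fun i => ih i.succ) h2
    refine ⟨funext fun i => ?_, h4⟩
    refine Fin.cases h1 (fun i => ?_) i
    exact congrFun h3 i

theorem code_inj (t : Tree) : ∀ (t' : Tree) (r r' : List Bool),
    t.code ++ r = t'.code ++ r' → t = t' ∧ r = r' := by
  induction t with
  | node n c ih =>
    intro t' r r' h
    cases t' with
    | node n' c' =>
      unfold Tree.code at h
      rw [List.append_assoc, List.append_assoc] at h
      obtain ⟨h1, h2⟩ := un_inj h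
      subst h1
      obtain ⟨h3, h4⟩ := flat_code_inj c c' ih _ _ h2
      exact ⟨by rw [h3], h4⟩

theorem flat_un_inj : ∀ (l l' : List ℕ), l.length = l'.length →
    (l.map un).flatten = (l'.map un).flatten → l = l'
  | [], [], _, _ => rfl
  | [], _ :: _, h, _ => by simp at h
  | _ :: _, [], h, _ => by simp at h
  | a :: l, b :: l', h, h2 => by
    rw [List.map_cons, List.map_cons, List.flatten_cons, List.flatten_cons] at h2
    obtain ⟨h3, h4⟩ := un_inj h2
    rw [h3, flat_un_inj l l' (by simpa using h) h4]

theorem encG_inj : Function.Injective encG := by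
  rintro ⟨t, l⟩ ⟨t', l'⟩ h
  unfold encG at h
  rw [List.append_assoc, List.append_assoc] at h
  obtain ⟨h1, h2⟩ := code_inj _ _ _ _ h
  obtain ⟨h3, h4⟩ := un_inj h2
  have h5 := flat_un_inj l l' h3 h4
  simp only at h1
  rw [h1, h5]

theorem flat_inj {N c : ℕ} (f g : Fin N → List Bool) (hf : ∀ i, (f i).length = c)
    (hg : ∀ i, (g i).length = c) (h : (List.ofFn f).flatten = (List.ofFn g).flatten) :
    f = g := by
  induction N with
  | zero => exact funext fun i => i.elim0
  | succ N ih =>
    rw [List.ofFn_succ, List.ofFn_succ, List.flatten_cons, List.flatten_cons] at h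
    obtain ⟨h1, h2⟩ := List.append_inj h (by rw [hf, hg])
    have h3 := ih (fun i => f i.succ) (fun i => g i.succ) (fun i => hf _) (fun i => hg _) h2
    refine funext fun i => ?_
    refine Fin.cases h1 (fun i => ?_) i
    exact congrFun h3 i

theorem length_bits {N n : ℕ} (S : Fin n → Finset (Fin N × Bool)) (j : Fin N) (b : Bool) :
    (bits S j b).length = n := by
  simp [bits]

theorem encF_inj : Function.Injective encF := by
  rintro ⟨N, n, h1, h2, S⟩ ⟨N', n', h1', h2', S'⟩ h
  unfold encF at h
  rw [List.append_assoc, List.append_assoc] at h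
  obtain ⟨h3, h4⟩ := un_inj h
  simp only at h3
  subst h3
  obtain ⟨h5, h6⟩ := un_inj h4
  simp only at h5
  subst h5
  have h7 := flat_inj (c := n + n) _ _ (fun i => by simp [length_bits])
    (fun i => by simp [length_bits]) h6
  have h8 : ∀ (j : Fin N) (b : Bool), bits S j b = bits S' j b := by
    intro j b
    obtain ⟨h9, h10⟩ := List.append_inj (congrFun h7 j) (by simp [length_bits])
    cases b
    · exact h10
    · exact h9
  have h11 : S = S' := by
    funext i
    ext ⟨j, b⟩
    have h12 := congrFun (List.ofFn_injective (h8 j b)) i
    simpa using h12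
  rw [h11]

theorem length_flat {N c : ℕ} (f : Fin N → List Bool) (hf : ∀ i, (f i).length = c) :
    (List.ofFn f).flatten.length = N * c := by
  induction N with
  | zero => simp
  | succ N ih =>
    rw [List.ofFn_succ, List.flatten_cons, List.length_append, hf, ih _ (fun i => hf _)]
    ring

theorem length_encF (F : CNF) : (encF F).length = F.N + F.n + 2 + F.N * (F.n + F.n) := by
  unfold encF
  rw [List.length_append, List.length_append, length_flat (c := F.n + F.n) _
    (fun i => by simp [length_bits])]
  simp [un]
  ring

/-! ### The codes of the trees of the reduction -/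

/-- The code of a piece of a caterpillar. -/
def w4 : List Bool := [true, true, false, false]

theorem code_leaf : leaf.code = [false] := by
  simp [leaf, Tree.code, un]

theorem code_node_two (a b : Tree) : (Tree.node 2 fun i => if i = 0 then a else b).code =
    [true, true, false] ++ a.code ++ b.code := by
  simp [Tree.code, un, List.ofFn_succ, List.replicate_succ]

theorem code_cat (k : ℕ) (t : Tree) : (cat k t).code = rep k w4 ++ t.code := by
  induction k with
  | zero => rfl
  | succ k ih =>
    rw [cat, code_node_two, ih, code_leaf, rep_succ]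
    simp [w4]

/-- The code of the tree `E`, with the second caterpillar of length `k`. -/
def codeE (N n k : ℕ) : List Bool :=
  [true, true, false] ++ (rep (n * N) (rep 3 w4) ++ (rep N (rep 4 w4) ++
    ((rep 5 w4 ++ [false]) ++ (rep k w4 ++ [false]))))

theorem L_succ {N n : ℕ} (hN : 2 ≤ N) (hn : 1 ≤ n) : L N n + 1 = n * N := by
  unfold L
  have : 1 * 2 ≤ n * N := Nat.mul_le_mul hn hN
  omega

theorem q3_val {N n : ℕ} (hN : 2 ≤ N) (hn : 1 ≤ n) : q3 N n = 4 * (n * N) + 4 * N + 5 := by
  have h1 := L_succ hN hn
  have h2 : q2 N n = n * N + 2 * N + 1 := by unfold q2; ring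
  rw [q3_eq, h2]
  omega

theorem code_E {N n : ℕ} (hN : 2 ≤ N) (hn : 1 ≤ n) {c k : ℕ} (h : k + c = n * N) :
    (E N n c).code = codeE N n k := by
  have h1 := L_succ hN hn
  have h2 := q3_val hN hn
  unfold E codeE
  rw [code_node_two, code_cat, code_cat, code_leaf]
  have h3 : q3 N n - L N n - 1 = n * N * 3 + N * 4 + 5 := by omega
  have h4 : L N n + 1 - c = k := by omega
  rw [h3, h4, rep_rep, rep_rep, rep_add, rep_add]
  simp [List.append_assoc]

/-- The codes of the trees belonging to a row of the incidence matrix. -/
def codeRow (N n : ℕ) : List Bool → List Bool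
  | [] => []
  | true :: l => codeE N n ((l.length + 1) * N) ++ codeRow N n l
  | false :: l => codeE N n (l.length * N) ++ codeRow N n l

theorem codeRow_cons (N n : ℕ) (b : Bool) (l : List Bool) : codeRow N n (b :: l) =
    codeE N n ((l.length + if b then 1 else 0) * N) ++ codeRow N n l := by
  cases b <;> rfl

theorem codeRow_ofFn {N n : ℕ} (hN : 2 ≤ N) (hn : 1 ≤ n) (k : ℕ) (hk : k ≤ n)
    (g : Fin k → Bool) :
    codeRow N n (List.ofFn g) = (List.ofFn fun i : Fin k =>
      (E N n (if g i then (n - k + i) * N else (n - k + i + 1) * N)).code).flatten := by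
  induction k with
  | zero => simp [codeRow]
  | succ k ih =>
    rw [List.ofFn_succ, codeRow_cons, ih (by omega), List.ofFn_succ, List.flatten_cons,
      List.length_ofFn]
    obtain ⟨r, rfl⟩ : ∃ r, n = r + (k + 1) := ⟨n - (k + 1), by omega⟩
    congr 1
    · symm
      refine code_E hN hn ?_
      have e1 : r + (k + 1) - (k + 1) = r := by omega
      rw [e1]
      cases g 0
      · simp
        ring
      · simp
        ring
    · congr 2
      funext i
      have e1 : r + (k + 1) - (k + 1) = r := by omega
      have e2 : r + (k + 1) - k = r + 1 := by omega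
      rw [e1, e2, Fin.val_succ]
      have e3 : r + 1 + (i : ℕ) = r + (i + 1) := by omega
      rw [e3]

/-- The code of the tree `X`, for the row `l`. -/
def codeX (N n : ℕ) (l : List Bool) : List Bool :=
  rep n [true] ++ ([true, true, false] ++ (codeRow N n l ++
    (codeE N n (n * N) ++ codeE N n (n * N))))

theorem code_X {N n : ℕ} (hN : 2 ≤ N) (hn : 1 ≤ n) (S : Fin n → Finset (Fin N × Bool))
    (j : Fin N) (b : Bool) : (X S j b).code = codeX N n (bits S j b) := by
  unfold X codeX Tree.code bits
  rw [codeRow_ofFn hN hn n le_rfl, List.ofFn_succ', List.ofFn_succ']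
  simp only [List.concat_eq_append, List.flatten_append, List.flatten_singleton,
    Fin.val_castSucc, Fin.val_last]
  rw [dif_neg (by omega), dif_neg (by omega), code_E hN hn (c := 0) (k := n * N) (by omega)]
  have e1 : un (n + 2) = rep n [true] ++ [true, true, false] := by
    unfold un
    rw [rep_single, List.replicate_add, List.append_assoc]
    rfl
  rw [e1]
  have e2 : (List.ofFn fun i : Fin n => Tree.code (if h : (i : ℕ) < n then
      E N n (if (j, b) ∈ S ⟨i, h⟩ then (i : ℕ) * N else ((i : ℕ) + 1) * N) else E N n 0)) =
      List.ofFn fun i : Fin n => (E N n (if decide ((j, b) ∈ S i) = true then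
        (n - n + (i : ℕ)) * N else (n - n + (i : ℕ) + 1) * N)).code := by
    congr 1
    funext i
    rw [dif_pos i.2, Nat.sub_self, Nat.zero_add]
    simp only [Fin.eta, decide_eq_true_eq]
  rw [e2]
  simp only [List.append_assoc]

theorem ofFn_two_mul (m : ℕ) (f g : List Bool) :
    (List.ofFn fun i : Fin (2 * m) => if decide ((i : ℕ) < m) = true then f else g).flatten =
      rep m f ++ rep m g := by
  have e : ∀ M, 2 * m = M → (List.ofFn fun i : Fin (2 * m) =>
      if decide ((i : ℕ) < m) = true then f else g) =
      List.ofFn fun i : Fin M => if decide ((i : ℕ) < m) = true then f else g := by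
    rintro M rfl
    rfl
  rw [e (m + m) (by omega), List.ofFn_add]
  simp [rep]

/-- The code of the tree `A`. -/
theorem code_A {N n : ℕ} (hN : 2 ≤ N) (hn : 1 ≤ n) (S : Fin n → Finset (Fin N × Bool))
    (j : Fin N) : (A S j).code = rep (m N n) [true, true] ++ ([false] ++
      (rep (m N n) (codeX N n (bits S j true)) ++ rep (m N n) (codeX N n (bits S j false)))) := by
  unfold A
  rw [Tree.code]
  have e1 : (fun i : Fin (2 * m N n) => (X S j (decide ((i : ℕ) < m N n))).code) =
      fun i : Fin (2 * m N n) => if decide ((i : ℕ) < m N n) = true then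
        codeX N n (bits S j true) else codeX N n (bits S j false) := by
    funext i
    rw [code_X hN hn]
    cases h : decide ((i : ℕ) < m N n) <;> simp
  rw [e1, ofFn_two_mul]
  have e2 : un (2 * m N n) = rep (m N n) [true, true] ++ [false] := by
    have e3 : rep (m N n) [true, true] = List.replicate (2 * m N n) true := by
      have e4 : [true, true] = rep 2 [true] := rfl
      rw [e4, rep_rep, rep_single, Nat.mul_comm]
    rw [e3]
    rfl
  rw [e2]
  simp only [List.append_assoc]

/-- The code of the tree of the reduction. -/
theorem code_T {N n : ℕ} (hN : 2 ≤ N) (hn : 1 ≤ n) (S : Fin n → Finset (Fin N × Bool)) :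
    (T S).code = rep (L N n) w4 ++ (rep N [true] ++ ([false] ++
      (List.ofFn fun j : Fin N => rep (m N n) [true, true] ++ ([false] ++
      (rep (m N n) (codeX N n (bits S j true)) ++
        rep (m N n) (codeX N n (bits S j false))))).flatten)) := by
  unfold T
  rw [code_cat, Tree.code]
  have e1 : (fun j : Fin N => (A S j).code) = fun j : Fin N => rep (m N n) [true, true] ++
      ([false] ++ (rep (m N n) (codeX N n (bits S j true)) ++
        rep (m N n) (codeX N n (bits S j false)))) := by
    funext j
    exact code_A hN hn S j
  rw [e1, un, rep_single]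
  simp only [List.append_assoc]

end Pool.Agent.Lib.MP_6e8fef_lc
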