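import Pool.Agent.Lib.MP_6e8fef_lc.Codes
import Pool.Agent.Lib.StackLang.Compose

/-!
# A program for the reduction
-/

set_option autoImplicit false

namespace Pool.Agent.Lib.MP_6e8fef_lc

open Pool.Agent.Lib.StackLang Function

/-- The stacks. -/
inductive R : Type
  | inp | aux | out | cN | cM | cn | e | mm | row | rw2 | d | t0 | t1 | t2
  deriving DecidableEq

instance : Fintype R :=
  Fintype.ofList [.inp, .aux, .out, .cN, .cM, .cn, .e, .mm, .row, .rw2, .d, .t0, .t1, .t2] (by
    intro x
    cases x <;> decide)

/-- Write the tree `E`; the length of the second caterpillar is in `d`. -/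
def pE : Prog R :=
  .seq (emit .aux [true, true, false])
    (.seq (each .e .t0 (emit .aux (rep 3 w4)))
      (.seq (each .cM .t0 (emit .aux (rep 4 w4)))
        (.seq (emit .aux (rep 5 w4 ++ [false]))
          (.seq (each .d .t0 (emit .aux w4)) (emit .aux [false])))))

theorem pE_em {N n k x : ℕ} {s : R → List Bool} (he : s .e = tt (n * N)) (hM : s .cM = tt N)
    (hd : s .d = tt k) (h0 : s .t0 = []) (hN : N ≤ x) (hnN : n * N ≤ x) (hk : k ≤ x) :
    Em .aux pE s (codeE N n k) (47 * x + 34) := by
  have h1 := emit_em (K := R) .aux [true, true, false] s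
  have h2 : Em .aux (each .e .t0 (emit .aux (rep 3 w4))) s (rep (n * N) (rep 3 w4))
      (n * N * 17 + 2) :=
    each_em (by decide) (by decide) (by decide) he h0 (fun _ _ => emit_em (K := R) .aux _ _)
  have h3 : Em .aux (each .cM .t0 (emit .aux (rep 4 w4))) s (rep N (rep 4 w4)) (N * 21 + 2) :=
    each_em (by decide) (by decide) (by decide) hM h0 (fun _ _ => emit_em (K := R) .aux _ _)
  have h4 : Em .aux (emit .aux (rep 5 w4 ++ [false])) s (rep 5 w4 ++ [false]) 22 :=
    emit_em (K := R) .aux _ _
  have h5 : Em .aux (each .d .t0 (emit .aux w4)) s (rep k w4) (k * 9 + 2) :=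
    each_em (by decide) (by decide) (by decide) hd h0 (fun _ _ => emit_em (K := R) .aux _ _)
  have h6 : Em .aux (emit .aux [false]) s [false] 2 := emit_em (K := R) .aux _ _
  refine Em.mono (h1.seq (h2.seq (h3.seq (h4.seq (h5.seq h6))))) ?_
  simp only [List.length_cons, List.length_nil]
  omega

/-- Subtract `N` from `d`. -/
def pSub : Prog R := each .cM .t0 (.pop .d)

theorem pSub_eval {N k : ℕ} {s : R → List Bool} (hM : s .cM = tt N) (hd : s .d = tt (k + N))
    (h0 : s .t0 = []) : EvalLe pSub s (update s .d (tt k)) (5 * N + 2) := by
  have h := each_eval (K := R) (c := .cM) (t := .t0) (by decide) (p := .pop .d) (B := 1) N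
    (fun i => update s .d (tt (k + N - i))) (by
      intro i hi x y
      refine (EvalLe.pop (K := R) .d _).cast ?_ le_rfl
      have e : tt (k + N - i) = true :: tt (k + N - (i + 1)) := by
        rw [← tt_succ]
        congr 1
        omega
      funext r
      cases r <;> simp [e]) (s := s) (s' := update s .d (tt k)) (by
      funext r
      cases r <;> simp [hM, hd, h0]) (by
      funext r
      cases r <;> simp [hM, h0])
  refine h.mono ?_
  omega

/-- Write the trees for a row of the incidence matrix. -/
def pRow : Prog R :=
  .drain .row (.seq (.push .rw2 true) (.seq pE pSub)) (.seq (.push .rw2 false) (.seq pSub pE))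

theorem pRow_eval {N n x : ℕ} (hN : N ≤ x) (hnN : n * N ≤ x) (l : List Bool) (hl : l.length ≤ n)
    (s : R → List Bool) (hr : s .row = l) (he : s .e = tt (n * N)) (hM : s .cM = tt N)
    (hd : s .d = tt (l.length * N)) (h0 : s .t0 = []) :
    EvalLe pRow s (update (update (update (update s .row []) .rw2 (l.reverse ++ s .rw2)) .d [])
      .aux ((codeRow N n l).reverse ++ s .aux)) (l.length * (52 * x + 38) + 1) := by
  induction l generalizing s with
  | nil =>
    refine (EvalLe.drain_stop (K := R) _ _ hr).cast ?_ (by simp)
    have hd' : s .d = [] := by simpa using hd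
    funext r
    cases r <;> simp [hr, hd', codeRow]
  | cons b l ih =>
    have hl' : l.length ≤ n := by
      rw [List.length_cons] at hl
      omega
    have hk : (l.length + 1) * N ≤ x := (Nat.mul_le_mul_right N (by simpa using hl)).trans hnN
    have hk' : l.length * N ≤ x := (Nat.mul_le_mul_right N hl').trans hnN
    have hd' : s .d = tt (l.length * N + N) := by
      rw [hd, List.length_cons, Nat.succ_mul]
    cases b
    · have h1 := EvalLe.push (K := R) .rw2 false (update s .row l)
      have h2 := pSub_eval (N := N) (k := l.length * N)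
        (s := update (update s .row l) .rw2 (false :: (update s .row l) .rw2))
        (by simpa using hM) (by simpa using hd') (by simpa using h0)
      have h3 := (pE_em (N := N) (n := n) (k := l.length * N) (x := x)
        (s := update (update (update s .row l) .rw2 (false :: (update s .row l) .rw2)) .d
          (tt (l.length * N))) (by simpa using he) (by simpa using hM) (by simp)
        (by simpa using h0) hN hnN hk').run
      have h4 := h1.seq (h2.seq h3)
      have h5 := ih hl' (update (update (update (update s .row l) .rw2
        (false :: (update s .row l) .rw2)) .d (tt (l.length * N))) .aux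
        ((codeE N n (l.length * N)).reverse ++ s .aux))
        (by simp) (by simpa using he) (by simpa using hM) (by simp) (by simpa using h0)
      refine EvalLe.cast (EvalLe.drain_false (K := R) _ hr (h4.cast ?_ le_rfl) h5) ?_ ?_
      · simp
      · funext r
        cases r <;> simp [codeRow]
      · rw [List.length_cons, Nat.add_mul l.length 1 (52 * x + 38)]
        omega
    · have h1 := EvalLe.push (K := R) .rw2 true (update s .row l)
      have h2 := (pE_em (N := N) (n := n) (k := (l.length + 1) * N) (x := x)
        (s := update (update s .row l) .rw2 (true :: (update s .row l) .rw2))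
        (by simpa using he) (by simpa using hM) (by simpa using hd)
        (by simpa using h0) hN hnN hk).run
      have h3 := pSub_eval (N := N) (k := l.length * N)
        (s := update (update (update s .row l) .rw2 (true :: (update s .row l) .rw2)) .aux
          ((codeE N n ((l.length + 1) * N)).reverse ++ s .aux))
        (by simpa using hM) (by simpa using hd') (by simpa using h0)
      have h4 := h1.seq ((h2.cast (by simp) le_rfl).seq h3)
      have h5 := ih hl' (update (update (update (update s .row l) .rw2
        (true :: (update s .row l) .rw2)) .aux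
        ((codeE N n ((l.length + 1) * N)).reverse ++ s .aux)) .d (tt (l.length * N)))
        (by simp) (by simpa using he) (by simpa using hM) (by simp) (by simpa using h0)
      refine EvalLe.cast (EvalLe.drain_true (K := R) _ hr h4 h5) ?_ ?_
      · funext r
        cases r <;> simp [codeRow]
      · rw [List.length_cons, Nat.add_mul l.length 1 (52 * x + 38)]
        omega

/-- Write the trees for a row of the incidence matrix; the stacks are restored. -/
def pX1 : Prog R := .seq (each .e .t0 (emit .d [true])) (.seq pRow (pour .rw2 .row))

theorem pX1_em {N n x : ℕ} {s : R → List Bool} (l : List Bool) (hl : l.length = n)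
    (hr : s .row = l) (hr2 : s .rw2 = []) (he : s .e = tt (n * N))
    (hM : s .cM = tt N) (hd : s .d = []) (h0 : s .t0 = []) (hNx : N ≤ x) (hnx : n ≤ x)
    (hnN : n * N ≤ x) : Em .aux pX1 s (codeRow N n l) (52 * x ^ 2 + 46 * x + 4) := by
  intro y
  have h3 : Em .d (each .e .t0 (emit .d [true])) (update s .aux y) (rep (n * N) [true])
      (n * N * 6 + 2) :=
    each_em (by decide) (by decide) (by decide) (by simpa using he) (by simpa using h0)
      (fun _ _ => emit_em (K := R) .d _ _)
  have h4 : EvalLe (each .e .t0 (emit .d [true])) (update s .aux y)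
      (update (update s .aux y) .d (tt (n * N))) (n * N * 6 + 2) := by
    refine h3.run.cast ?_ le_rfl
    rw [rep_single]
    simp [hd]
  have h5 := pRow_eval (N := N) (n := n) (x := x) hNx hnN l (by omega)
    (update (update s .aux y) .d (tt (n * N))) (by simpa using hr) (by simpa using he)
    (by simpa using hM) (by simp [hl]) (by simpa using h0)
  have h6 : EvalLe pRow (update (update s .aux y) .d (tt (n * N)))
      (update (update (update s .row []) .rw2 l.reverse) .aux
        ((codeRow N n l).reverse ++ y)) (n * (52 * x + 38) + 1) := by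
    refine h5.cast ?_ (by rw [hl])
    funext r
    cases r <;> simp [hr2, hd]
  have h7 := pour_eval (K := R) (k := .rw2) (l := .row) (by decide) l.reverse
    (update (update (update s .row []) .rw2 l.reverse) .aux ((codeRow N n l).reverse ++ y))
    (by simp)
  refine EvalLe.cast (h4.seq (h6.seq h7)) ?_ ?_
  · funext r
    cases r <;> simp [hr2, hr]
  · rw [List.length_reverse, hl]
    have h8 : n * (52 * x + 38) ≤ x * (52 * x + 38) := Nat.mul_le_mul_right _ hnx
    have h9 : x * (52 * x + 38) = 52 * x ^ 2 + 38 * x := by ring
    omega

/-- Write two trees `E` with threshold `0`. -/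
def pX2 : Prog R := .seq (each .e .t0 (emit .d [true])) (.seq (.seq pE pE) (clear .d))

theorem pX2_em {N n x : ℕ} {s : R → List Bool} (he : s .e = tt (n * N))
    (hM : s .cM = tt N) (hd : s .d = []) (h0 : s .t0 = []) (hNx : N ≤ x)
    (hnN : n * N ≤ x) : Em .aux pX2 s (codeE N n (n * N) ++ codeE N n (n * N))
      (102 * x + 71) := by
  intro y
  have h3 : Em .d (each .e .t0 (emit .d [true])) (update s .aux y) (rep (n * N) [true])
      (n * N * 6 + 2) :=
    each_em (by decide) (by decide) (by decide) (by simpa using he) (by simpa using h0)
      (fun _ _ => emit_em (K := R) .d _ _)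
  have h4 : EvalLe (each .e .t0 (emit .d [true])) (update s .aux y)
      (update (update s .d (tt (n * N))) .aux y) (n * N * 6 + 2) := by
    refine h3.run.cast ?_ le_rfl
    rw [rep_single]
    funext r
    cases r <;> simp [hd]
  have h5 := pE_em (N := N) (n := n) (k := n * N) (x := x) (s := update s .d (tt (n * N)))
    (by simpa using he) (by simpa using hM) (by simp) (by simpa using h0) hNx hnN hnN
  have h6 := (h5.seq h5) y
  have h7 := clear_eval (K := R) (k := .d) (n * N)
    (update (update s .d (tt (n * N))) .aux
      ((codeE N n (n * N) ++ codeE N n (n * N)).reverse ++ y)) (by simp)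
  refine EvalLe.cast (h4.seq (h6.seq h7)) ?_ ?_
  · funext r
    cases r <;> simp [hd]
  · omega

/-- Write a tree `X`. -/
def pX : Prog R :=
  .seq (each .cn .t0 (emit .aux [true])) (.seq (emit .aux [true, true, false])
    (.seq pX1 pX2))

/-- The time for a tree `X`. -/
def bX (x : ℕ) : ℕ := 52 * x ^ 2 + 154 * x + 81

theorem pX_em {N n x : ℕ} {s : R → List Bool} (l : List Bool) (hl : l.length = n)
    (hr : s .row = l) (hr2 : s .rw2 = []) (hn : s .cn = tt n) (he : s .e = tt (n * N))
    (hM : s .cM = tt N) (hd : s .d = []) (h0 : s .t0 = []) (hNx : N ≤ x) (hnx : n ≤ x)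
    (hnN : n * N ≤ x) : Em .aux pX s (codeX N n l) (bX x) := by
  have h1 : Em .aux (each .cn .t0 (emit .aux [true])) s (rep n [true]) (n * 6 + 2) :=
    each_em (by decide) (by decide) (by decide) hn h0 (fun _ _ => emit_em (K := R) .aux _ _)
  have h2 : Em .aux (emit .aux [true, true, false]) s [true, true, false] 4 :=
    emit_em (K := R) .aux _ _
  have h3 := pX1_em l hl hr hr2 he hM hd h0 hNx hnx hnN
  have h4 := pX2_em he hM hd h0 hNx hnN
  refine (h1.seq (h2.seq (h3.seq h4))).mono ?_
  unfold bX
  omega

/-- Read a row of the incidence matrix. -/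
def pRead : Prog R :=
  .seq (each .cn .t0 (.ite .inp .skip (.seq (.pop .inp) (.push .rw2 false))
    (.seq (.pop .inp) (.push .rw2 true)))) (pour .rw2 .row)

theorem pRead_eval {n : ℕ} {s : R → List Bool} (l r : List Bool) (hl : l.length = n)
    (hi : s .inp = l ++ r) (hr : s .row = []) (hr2 : s .rw2 = []) (hn : s .cn = tt n)
    (h0 : s .t0 = []) : EvalLe pRead s (update (update s .inp r) .row l) (9 * n + 3) := by
  have h1 := each_eval (K := R) (c := .cn) (t := .t0) (by decide)
    (p := .ite .inp .skip (.seq (.pop .inp) (.push .rw2 false))
      (.seq (.pop .inp) (.push .rw2 true))) (B := 3) n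
    (fun i => update (update s .inp (l.drop i ++ r)) .rw2 (l.take i).reverse) (by
      intro i hi x y
      have hi' : i < l.length := by omega
      have e1 : l.drop i = l[i] :: l.drop (i + 1) := List.drop_eq_getElem_cons hi'
      have e2 : (l.take (i + 1)).reverse = l[i] :: (l.take i).reverse := by
        rw [List.take_succ_eq_append_getElem hi', List.reverse_append]
        rfl
      cases hb : l[i]
      · refine ⟨1 + (1 + 1), le_rfl, ?_⟩
        have h := Eval.ite_false (K := R) (k := .inp) .skip
          (.seq (.pop .inp) (.push .rw2 true)) (s := update (update (update (update s .inp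
            (l.drop i ++ r)) .rw2 (l.take i).reverse) .cn x) .t0 y) (by
              simp [e1, hb]) (Eval.seq (.pop .inp _) (.push .rw2 false _))
        have e : ∀ u v : R → List Bool, u = v → ∀ {w : R → List Bool} {p : Prog R} {m : ℕ},
            Eval p w u m → Eval p w v m := by
          rintro u v rfl w p m h
          exact h
        refine e _ _ ?_ h
        funext r
        cases r <;> simp [e1, e2, hb]
      · refine ⟨1 + (1 + 1), le_rfl, ?_⟩
        have h := Eval.ite_true (K := R) (k := .inp) .skip
          (.seq (.pop .inp) (.push .rw2 false)) (s := update (update (update (update s .inp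
            (l.drop i ++ r)) .rw2 (l.take i).reverse) .cn x) .t0 y) (by
              simp [e1, hb]) (Eval.seq (.pop .inp _) (.push .rw2 true _))
        have e : ∀ u v : R → List Bool, u = v → ∀ {w : R → List Bool} {p : Prog R} {m : ℕ},
            Eval p w u m → Eval p w v m := by
          rintro u v rfl w p m h
          exact h
        refine e _ _ ?_ h
        funext r
        cases r <;> simp [e1, e2, hb]) (s := s)
    (s' := update (update s .inp r) .rw2 l.reverse) (by
      funext r
      cases r <;> simp [hi, hr2, hn, h0]) (by
      funext r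
      cases r <;> simp [hn, h0, hl.symm])
  have h2 := pour_eval (K := R) (k := .rw2) (l := .row) (by decide) l.reverse
    (update (update s .inp r) .rw2 l.reverse) (by simp)
  refine EvalLe.cast (h1.seq h2) ?_ ?_
  · funext r
    cases r <;> simp [hr, hr2]
  · rw [List.length_reverse, hl]
    omega

/-- Read a row and write `m` copies of the tree `X`. -/
def pHalf : Prog R := .seq pRead (.seq (each .mm .t1 pX) (wipe .row))

/-- The time for `pHalf`. -/
def bH (x : ℕ) : ℕ := 208 * x ^ 3 + 616 * x ^ 2 + 351 * x + 6

theorem pHalf_eval {N n m x : ℕ} {s : R → List Bool} (l r : List Bool) (hl : l.length = n)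
    (hi : s .inp = l ++ r) (hr : s .row = []) (hr2 : s .rw2 = []) (hn : s .cn = tt n)
    (he : s .e = tt (n * N)) (hM : s .cM = tt N) (hm : s .mm = tt m) (hd : s .d = [])
    (h0 : s .t0 = []) (h1 : s .t1 = []) (hNx : N ≤ x) (hnx : n ≤ x)
    (hnN : n * N ≤ x) (hmx : m ≤ 4 * x) :
    EvalLe pHalf s (update (update s .inp r) .aux ((rep m (codeX N n l)).reverse ++ s .aux))
      (bH x) := by
  have h2 := pRead_eval l r hl hi hr hr2 hn h0
  have h3 : Em .aux (each .mm .t1 pX) (update (update s .inp r) .row l)
      (rep m (codeX N n l)) (m * (bX x + 4) + 2) :=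
    each_em (by decide) (by decide) (by decide) (by simpa using hm) (by simpa using h1)
      (fun u v => pX_em l hl (by simp) (by simpa using hr2) (by simpa using hn)
        (by simpa using he) (by simpa using hM) (by simpa using hd) (by simpa using h0)
        hNx hnx hnN)
  have h4 := wipe_eval (K := R) (k := .row) l (update (update (update s .inp r) .row l) .aux
    ((rep m (codeX N n l)).reverse ++ update (update s .inp r) .row l .aux)) (by simp)
  refine EvalLe.cast (h2.seq (h3.run.seq h4)) ?_ ?_
  · funext q
    cases q <;> simp [hr]
  · have h5 : m * (bX x + 4) ≤ 4 * x * (bX x + 4) := Nat.mul_le_mul_right _ hmx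
    have h6 : 4 * x * (bX x + 4) = 208 * x ^ 3 + 616 * x ^ 2 + 340 * x := by
      unfold bX
      ring
    unfold bH
    omega

/-- Write the tree of a variable. -/
def pJ : Prog R :=
  .seq (.seq (each .mm .t0 (emit .aux [true, true])) (emit .aux [false])) (.seq pHalf pHalf)

/-- The time for the tree of a variable. -/
def bJ (x : ℕ) : ℕ := 416 * x ^ 3 + 1232 * x ^ 2 + 730 * x + 16

theorem pJ_eval {N n m x : ℕ} {s : R → List Bool} (l l' r : List Bool) (hl : l.length = n)
    (hl' : l'.length = n)
    (hi : s .inp = l ++ (l' ++ r)) (hr : s .row = []) (hr2 : s .rw2 = []) (hn : s .cn = tt n)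
    (he : s .e = tt (n * N)) (hM : s .cM = tt N) (hm : s .mm = tt m) (hd : s .d = [])
    (h0 : s .t0 = []) (h1 : s .t1 = []) (hNx : N ≤ x) (hnx : n ≤ x)
    (hnN : n * N ≤ x) (hmx : m ≤ 4 * x) :
    EvalLe pJ s (update (update s .inp r) .aux ((rep m [true, true] ++ ([false] ++
      (rep m (codeX N n l) ++ rep m (codeX N n l')))).reverse ++ s .aux)) (bJ x) := by
  have h2 : Em .aux (each .mm .t0 (emit .aux [true, true])) s (rep m [true, true])
      (m * 7 + 2) :=
    each_em (by decide) (by decide) (by decide) hm h0 (fun _ _ => emit_em (K := R) .aux _ _)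
  have h3 : Em .aux (emit .aux [false]) s [false] 2 := emit_em (K := R) .aux _ _
  have h4 := (h2.seq h3).run
  have h5 := pHalf_eval (x := x) (s := update s .aux ((rep m [true, true] ++ [false]).reverse ++
    s .aux)) l (l' ++ r) hl (by simpa using hi) (by simpa using hr) (by simpa using hr2)
    (by simpa using hn) (by simpa using he) (by simpa using hM) (by simpa using hm)
    (by simpa using hd) (by simpa using h0) (by simpa using h1) hNx hnx hnN hmx
  have h6 := pHalf_eval (x := x) (s := update (update (update s .aux
    ((rep m [true, true] ++ [false]).reverse ++ s .aux)) .inp (l' ++ r)) .aux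
    ((rep m (codeX N n l)).reverse ++ update s .aux ((rep m [true, true] ++ [false]).reverse ++
    s .aux) .aux)) l' r hl' (by simp) (by simpa using hr) (by simpa using hr2)
    (by simpa using hn) (by simpa using he) (by simpa using hM) (by simpa using hm)
    (by simpa using hd) (by simpa using h0) (by simpa using h1) hNx hnx hnN hmx
  refine EvalLe.cast (h4.seq (h5.seq h6)) ?_ ?_
  · funext q
    cases q <;> simp
  · unfold bH bJ
    omega

/-- A store. -/
def base (N n : ℕ) (x y : List Bool) : R → List Bool
  | .inp => x
  | .aux => y
  | .cN => tt N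
  | .cM => tt N
  | .cn => tt n
  | .e => tt (n * N)
  | .mm => tt (m N n)
  | _ => []

theorem base_aux (N n : ℕ) (x y z : List Bool) :
    update (base N n x y) .aux z = base N n x z := by
  funext r
  cases r <;> simp [base]

theorem base_inp (N n : ℕ) (x y z : List Bool) :
    update (base N n x y) .inp z = base N n z y := by
  funext r
  cases r <;> simp [base]

/-- The code of the tree of a variable. -/
def codeA (N n : ℕ) (l l' : List Bool) : List Bool :=
  rep (m N n) [true, true] ++ ([false] ++
    (rep (m N n) (codeX N n l) ++ rep (m N n) (codeX N n l')))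

/-- Write the trees of all the variables. -/
def pLoop : Prog R := each .cN .t2 pJ

theorem pLoop_eval {N n x : ℕ} (f g : Fin N → List Bool) (hf : ∀ j, (f j).length = n)
    (hg : ∀ j, (g j).length = n) (y : List Bool) (hNx : N ≤ x) (hnx : n ≤ x)
    (hnN : n * N ≤ x) (hmx : m N n ≤ 4 * x) :
    EvalLe pLoop (base N n (List.ofFn fun j => f j ++ g j).flatten y)
      (base N n [] ((List.ofFn fun j => codeA N n (f j) (g j)).flatten.reverse ++ y))
      (N * (bJ x + 4) + 2) := by
  refine each_eval (K := R) (c := .cN) (t := .t2) (by decide) N (fun i => base N n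
    ((List.ofFn fun j => f j ++ g j).drop i).flatten
    (((List.ofFn fun j => codeA N n (f j) (g j)).take i).flatten.reverse ++ y)) ?_ ?_ ?_
  · intro i hi u v
    have e1 : (List.ofFn fun j => f j ++ g j).drop i =
        (f ⟨i, hi⟩ ++ g ⟨i, hi⟩) :: (List.ofFn fun j => f j ++ g j).drop (i + 1) := by
      rw [List.drop_eq_getElem_cons (by simpa using hi)]
      simp
    have e2 : (List.ofFn fun j => codeA N n (f j) (g j)).take (i + 1) =
        (List.ofFn fun j => codeA N n (f j) (g j)).take i ++
          [codeA N n (f ⟨i, hi⟩) (g ⟨i, hi⟩)] := by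
      rw [List.take_succ_eq_append_getElem (by simpa using hi)]
      simp
    have h := pJ_eval (N := N) (n := n) (m := m N n) (x := x) (s := update (update (base N n
      ((List.ofFn fun j => f j ++ g j).drop i).flatten
      (((List.ofFn fun j => codeA N n (f j) (g j)).take i).flatten.reverse ++ y)) .cN u) .t2 v)
      (f ⟨i, hi⟩) (g ⟨i, hi⟩) ((List.ofFn fun j => f j ++ g j).drop (i + 1)).flatten
      (hf _) (hg _) (by
        have : (update (update (base N n
          ((List.ofFn fun j => f j ++ g j).drop i).flatten
          (((List.ofFn fun j => codeA N n (f j) (g j)).take i).flatten.reverse ++ y)) R.cN u)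
          R.t2 v) R.inp = ((List.ofFn fun j => f j ++ g j).drop i).flatten := by simp [base]
        rw [this, e1, List.flatten_cons, List.append_assoc])
      (by simp [base]) (by simp [base]) (by simp [base]) (by simp [base]) (by simp [base])
      (by simp [base]) (by simp [base]) (by simp [base]) (by simp [base]) hNx hnx hnN hmx
    refine EvalLe.cast h ?_ le_rfl
    have e3 : (((List.ofFn fun j => codeA N n (f j) (g j)).take (i + 1)).flatten.reverse ++ y) =
        (codeA N n (f ⟨i, hi⟩) (g ⟨i, hi⟩)).reverse ++
        (((List.ofFn fun j => codeA N n (f j) (g j)).take i).flatten.reverse ++ y) := by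
      rw [e2, List.flatten_append, List.reverse_append, List.append_assoc]
      simp
    rw [e3]
    funext q
    cases q <;> simp [base, codeA]
  · funext q
    cases q <;> simp [base]
  · have e4 : (List.ofFn fun j => f j ++ g j).drop N = [] :=
      List.drop_eq_nil_of_le (by simp)
    have e5 : (List.ofFn fun j => codeA N n (f j) (g j)).take N =
        List.ofFn fun j => codeA N n (f j) (g j) := List.take_of_length_le (by simp)
    rw [e4, e5]
    funext q
    cases q <;> simp [base]

/-! ### The beginning -/

/-- Read the two numbers. -/
def pInit1 : Prog R :=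
  .seq (.seq (move .inp .cN) (.pop .inp)) (.seq (move .inp .cn) (.pop .inp))

theorem pInit1_eval (N n : ℕ) (r : List Bool) :
    EvalLe pInit1 (only R.inp (un N ++ (un n ++ r)))
      (update (update (update (fun _ => []) R.inp r) R.cN (tt N)) R.cn (tt n))
      (2 * N + 2 * n + 4) := by
  have h1 := move_eval (K := R) (k := R.inp) (l := R.cN) (by decide) N (false :: (un n ++ r))
    (by simp) (only R.inp (un N ++ (un n ++ r))) (by simp [only, un])
  have h2 := EvalLe.pop (K := R) R.inp (update (update (only R.inp (un N ++ (un n ++ r))) R.inp
    (false :: (un n ++ r))) R.cN (tt N ++ only R.inp (un N ++ (un n ++ r)) R.cN))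
  have h3 : EvalLe (K := R) (.seq (move R.inp R.cN) (.pop R.inp)) (only R.inp (un N ++ (un n ++ r)))
      (update (update (fun _ => []) R.inp (un n ++ r)) R.cN (tt N)) (2 * N + 2) := by
    refine (h1.seq h2).cast ?_ (by omega)
    funext q
    cases q <;> simp [only]
  have h4 := move_eval (K := R) (k := R.inp) (l := R.cn) (by decide) n (false :: r)
    (by simp) (update (update (fun _ => []) R.inp (un n ++ r)) R.cN (tt N)) (by simp [un])
  have h5 := EvalLe.pop (K := R) R.inp (update (update (update (update (fun _ => []) R.inp
    (un n ++ r)) R.cN (tt N)) R.inp (false :: r)) R.cn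
    (tt n ++ (update (update (fun _ => []) R.inp (un n ++ r)) R.cN (tt N)) R.cn))
  refine EvalLe.cast (h3.seq (h4.seq h5)) ?_ (by omega)
  funext q
  cases q <;> simp

/-- Compute the counters. -/
def pInit2 : Prog R :=
  .seq (each .cN .t0 (emit .cM [true]))
    (.seq (each .cN .t0 (each .cn .t1 (emit .e [true])))
      (.seq (each .e .t0 (emit .mm [true]))
        (.seq (each .cN .t0 (emit .mm [true, true, true])) (emit .mm [true, true]))))

theorem m_val (N n : ℕ) : m N n = n * N + 3 * N + 2 := by
  unfold m q2
  ring

theorem pInit2_eval {N n x : ℕ} (r : List Bool) (hNx : N ≤ x) (hnx : n ≤ x)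
    (hnN : n * N ≤ x) :
    EvalLe pInit2 (update (update (update (fun _ => []) .inp r) .cN (tt N)) .cn (tt n))
      (base N n r []) (6 * x ^ 2 + 26 * x + 11) := by
  have h1 : EvalLe (K := R) (each .cN .t0 (emit .cM [true]))
      (update (update (update (fun _ => []) .inp r) .cN (tt N)) .cn (tt n))
      (update (update (update (update (fun _ => []) .inp r) .cN (tt N)) .cn (tt n)) .cM (tt N))
      (N * 6 + 2) := by
    refine (each_em (K := R) (a := .cM) (w := [true]) (n := N) (B := 2)
      (by decide) (by decide) (by decide)
      (by simp) (by simp) (fun _ _ => emit_em (K := R) .cM _ _)).run.cast ?_ le_rfl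
    rw [rep_single]
    simp
  have h2 : EvalLe (K := R) (each .cN .t0 (each .cn .t1 (emit .e [true])))
      (update (update (update (update (fun _ => []) .inp r) .cN (tt N)) .cn (tt n)) .cM (tt N))
      (update (update (update (update (update (fun _ => []) .inp r) .cN (tt N)) .cn (tt n)) .cM
        (tt N)) .e (tt (n * N))) (N * (n * 6 + 2 + 4) + 2) := by
    refine (each_em (K := R) (a := .e) (w := rep n [true]) (n := N) (B := n * 6 + 2)
      (by decide) (by decide) (by decide)
      (by simp) (by simp) (fun _ _ => each_em (by decide) (by decide) (by decide) (by simp)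
        (by simp) (fun _ _ => emit_em (K := R) .e _ _))).run.cast ?_ le_rfl
    rw [rep_rep, rep_single, Nat.mul_comm]
    simp
  have h3 : EvalLe (K := R) (each .e .t0 (emit .mm [true]))
      (update (update (update (update (update (fun _ => []) .inp r) .cN (tt N)) .cn (tt n)) .cM
        (tt N)) .e (tt (n * N)))
      (update (update (update (update (update (update (fun _ => []) .inp r) .cN (tt N)) .cn
        (tt n)) .cM (tt N)) .e (tt (n * N))) .mm (tt (n * N))) (n * N * 6 + 2) := by
    refine (each_em (K := R) (a := .mm) (w := [true]) (n := n * N) (B := 2)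
      (by decide) (by decide) (by decide)
      (by simp) (by simp) (fun _ _ => emit_em (K := R) .mm _ _)).run.cast ?_ le_rfl
    rw [rep_single]
    simp
  have h4 : Em (K := R) .mm (each .cN .t0 (emit .mm [true, true, true]))
      (update (update (update (update (update (update (fun _ => []) .inp r) .cN (tt N)) .cn
        (tt n)) .cM (tt N)) .e (tt (n * N))) .mm (tt (n * N))) (rep N [true, true, true])
        (N * 8 + 2) :=
    each_em (by decide) (by decide) (by decide)
      (by simp) (by simp) (fun _ _ => emit_em (K := R) .mm _ _)
  have h5 := (h4.seq (emit_em (K := R) .mm [true, true] _)).run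
  refine EvalLe.cast (h1.seq (h2.seq (h3.seq h5))) ?_ ?_
  · have e1 : rep N [true, true, true] = tt (3 * N) := by
      have e2 : [true, true, true] = rep 3 [true] := rfl
      rw [e2, rep_rep, rep_single, Nat.mul_comm]
    have e3 : (rep N [true, true, true] ++ [true, true]).reverse ++ tt (n * N) =
        tt (m N n) := by
      have e4 : [true, true] = tt 2 := rfl
      rw [e1, e4, ← List.replicate_add, List.reverse_replicate, ← List.replicate_add, m_val]
      congr 1
      omega
    funext q
    cases q
    case mm => simpa [base] using e3
    all_goals simp [base]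
  · have h6 : N * (n * 6 + 2 + 4) ≤ x * (x * 6 + 2 + 4) :=
      Nat.mul_le_mul hNx (by omega)
    have h7 : x * (x * 6 + 2 + 4) = 6 * x ^ 2 + 6 * x := by ring
    simp only [List.length_cons, List.length_nil]
    omega

/-- Write the code of the main path and of the degree of its last vertex. -/
def pTop : Prog R :=
  .seq (.pop .e) (.seq (each .e .t0 (emit .aux w4)) (.seq (.push .e true)
    (.seq (each .cN .t0 (emit .aux [true])) (emit .aux [false]))))

theorem pTop_eval {N n x : ℕ} (hN : 2 ≤ N) (hn : 1 ≤ n) (r : List Bool) (hNx : N ≤ x)
    (hnN : n * N ≤ x) : EvalLe pTop (base N n r [])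
      (base N n r (rep (L N n) w4 ++ (rep N [true] ++ [false])).reverse)
      (15 * x + 8) := by
  have hL := L_succ hN hn
  have h1 : EvalLe (.pop .e) (base N n r []) (update (base N n r []) .e (tt (L N n))) 1 := by
    refine (EvalLe.pop (K := R) .e _).cast ?_ le_rfl
    have e1 : base N n r [] .e = tt (L N n + 1) := by rw [hL]; rfl
    rw [e1]
    rfl
  have h2 : EvalLe (each .e .t0 (emit .aux w4)) (update (base N n r []) .e (tt (L N n)))
      (update (update (base N n r []) .e (tt (L N n))) .aux (rep (L N n) w4).reverse)
      (L N n * 9 + 2) := by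
    refine (each_em (K := R) (a := .aux) (w := w4) (n := L N n) (B := 5)
      (by decide) (by decide) (by decide)
      (by simp) (by simp [base]) (fun _ _ => emit_em (K := R) .aux _ _)).run.cast ?_ le_rfl
    simp [base]
  have h3 : EvalLe (.push .e true) (update (update (base N n r []) .e (tt (L N n))) .aux
      (rep (L N n) w4).reverse) (base N n r (rep (L N n) w4).reverse) 1 := by
    refine (EvalLe.push (K := R) .e true _).cast ?_ le_rfl
    have e1 : true :: tt (L N n) = tt (n * N) := by rw [← hL]; rfl
    funext q
    cases q <;> simp [base, e1]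
  have h4 : Em .aux (each .cN .t0 (emit .aux [true])) (base N n r (rep (L N n) w4).reverse)
      (rep N [true]) (N * 6 + 2) :=
    each_em (by decide) (by decide) (by decide) rfl rfl
      (fun _ _ => emit_em (K := R) .aux _ _)
  have h5 := (h4.seq (emit_em (K := R) .aux [false] _)).run
  refine EvalLe.cast (h1.seq (h2.seq (h3.seq h5))) ?_ ?_
  · rw [base_aux]
    congr 1
    simp [base]
  · simp only [List.length_cons, List.length_nil]
    omega

/-! ### The end -/

/-- Write the numbers of the game. -/
def pNum : Prog R :=
  .seq (emit .aux [true, true, true, false]) (.seq (each .cM .t0 (emit .aux [true]))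
    (.seq (emit .aux [false]) (.seq (each .e .t0 (emit .aux [true]))
      (.seq (each .cM .t0 (emit .aux [true, true])) (.seq (emit .aux [true, false])
        (.seq (each .e .t0 (emit .aux [true, true, true, true]))
          (.seq (each .cM .t0 (emit .aux [true, true, true, true]))
            (emit .aux [true, true, true, true, true, false]))))))))

theorem rep_tt (k c : ℕ) : rep k (tt c) = tt (k * c) := by
  have e2 : tt c = rep c [true] := by rw [rep_single]
  rw [e2, rep_rep, rep_single]

theorem pNum_em {N n x : ℕ} (hN : 2 ≤ N) (hn : 1 ≤ n) (s : R → List Bool)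
    (hM : s .cM = tt N) (he : s .e = tt (n * N)) (h0 : s .t0 = []) (hNx : N ≤ x)
    (hnN : n * N ≤ x) :
    Em .aux pNum s (un 3 ++ ([N, q2 N n, q3 N n].map un).flatten) (37 * x + 27) := by
  have h1 : Em .aux (emit .aux [true, true, true, false]) s [true, true, true, false] 5 :=
    emit_em (K := R) .aux _ _
  have h2 : Em .aux (each .cM .t0 (emit .aux [true])) s (rep N [true]) (N * 6 + 2) :=
    each_em (by decide) (by decide) (by decide) hM h0 (fun _ _ => emit_em (K := R) .aux _ _)
  have h3 : Em .aux (emit .aux [false]) s [false] 2 := emit_em (K := R) .aux _ _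
  have h4 : Em .aux (each .e .t0 (emit .aux [true])) s (rep (n * N) [true])
      (n * N * 6 + 2) :=
    each_em (by decide) (by decide) (by decide) he h0 (fun _ _ => emit_em (K := R) .aux _ _)
  have h5 : Em .aux (each .cM .t0 (emit .aux [true, true])) s (rep N [true, true])
      (N * 7 + 2) :=
    each_em (by decide) (by decide) (by decide) hM h0 (fun _ _ => emit_em (K := R) .aux _ _)
  have h6 : Em .aux (emit .aux [true, false]) s [true, false] 3 := emit_em (K := R) .aux _ _
  have h7 : Em .aux (each .e .t0 (emit .aux [true, true, true, true])) s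
      (rep (n * N) [true, true, true, true]) (n * N * 9 + 2) :=
    each_em (by decide) (by decide) (by decide) he h0 (fun _ _ => emit_em (K := R) .aux _ _)
  have h8 : Em .aux (each .cM .t0 (emit .aux [true, true, true, true])) s
      (rep N [true, true, true, true]) (N * 9 + 2) :=
    each_em (by decide) (by decide) (by decide) hM h0 (fun _ _ => emit_em (K := R) .aux _ _)
  have h9 : Em .aux (emit .aux [true, true, true, true, true, false]) s
      [true, true, true, true, true, false] 7 := emit_em (K := R) .aux _ _
  refine Em.cast (h1.seq (h2.seq (h3.seq (h4.seq (h5.seq (h6.seq (h7.seq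
    (h8.seq h9)))))))) ?_ ?_
  · have e4 : q2 N n = n * N * 1 + N * 2 + 1 := by unfold q2; ring
    have e5 : q3 N n = n * N * 4 + (N * 4 + 5) := by rw [q3_val hN hn]; ring
    have e6 : un (q2 N n) = tt (n * N * 1) ++ (tt (N * 2) ++ [true, false]) := by
      unfold un
      rw [e4, List.replicate_add, List.replicate_add]
      simp only [List.append_assoc]
      rfl
    have e7 : un (q3 N n) = tt (n * N * 4) ++ (tt (N * 4) ++
        [true, true, true, true, true, false]) := by
      unfold un
      rw [e5, List.replicate_add, List.replicate_add]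
      simp only [List.append_assoc]
      rfl
    have e8 : un N = tt (N * 1) ++ [false] := by
      unfold un
      rw [Nat.mul_one]
    rw [List.map_cons, List.map_cons, List.map_cons, List.map_nil, List.flatten_cons,
      List.flatten_cons, List.flatten_cons, List.flatten_nil, List.append_nil, e6, e7, e8]
    have f1 : rep N [true] = tt (N * 1) := rep_tt N 1
    have f2 : rep (n * N) [true] = tt (n * N * 1) := rep_tt _ 1
    have f3 : rep N [true, true] = tt (N * 2) := rep_tt N 2
    have f4 : rep (n * N) [true, true, true, true] = tt (n * N * 4) := rep_tt _ 4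
    have f5 : rep N [true, true, true, true] = tt (N * 4) := rep_tt _ 4
    rw [f1, f2, f3, f4, f5]
    have e9 : un 3 = [true, true, true, false] := rfl
    rw [e9]
    simp only [List.append_assoc]
  · omega

/-- Empty the counters and write the output. -/
def pEnd : Prog R :=
  .seq (clear .cN) (.seq (clear .cM) (.seq (clear .cn) (.seq (clear .e)
    (.seq (clear .mm) (pour .aux .out)))))

theorem pEnd_eval (N n : ℕ) (w : List Bool) :
    EvalLe pEnd (base N n [] w.reverse) (only .out w)
      (4 * N + 2 * n + 2 * (n * N) + 2 * m N n + 2 * w.length + 6) := by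
  have h1 := clear_eval (K := R) (k := .cN) N (base N n [] w.reverse) rfl
  have h2 := clear_eval (K := R) (k := .cM) N (update (base N n [] w.reverse) .cN [])
    (by simp [base])
  have h3 := clear_eval (K := R) (k := .cn) n (update (update (base N n [] w.reverse)
    .cN []) .cM []) (by simp [base])
  have h4 := clear_eval (K := R) (k := .e) (n * N) (update (update (update
    (base N n [] w.reverse) .cN []) .cM []) .cn []) (by simp [base])
  have h5 := clear_eval (K := R) (k := .mm) (m N n) (update (update (update (update
    (base N n [] w.reverse) .cN []) .cM []) .cn []) .e []) (by simp [base])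
  have h6 := pour_eval (K := R) (k := .aux) (l := .out) (by decide) w.reverse
    (update (update (update (update (update
    (base N n [] w.reverse) .cN []) .cM []) .cn []) .e []) .mm []) (by simp [base])
  refine EvalLe.cast (h1.seq (h2.seq (h3.seq (h4.seq (h5.seq h6))))) ?_ ?_
  · funext q
    cases q <;> simp [base, only]
  · rw [List.length_reverse]
    omega

/-! ### The whole program -/

/-- The program for the reduction. -/
def prog : Prog R :=
  .seq pInit1 (.seq pInit2 (.seq pTop (.seq pLoop (.seq pNum pEnd))))

/-- The reduction. -/
def red (F : CNF) : Game := (T F.S, [F.N, q2 F.N F.n, q3 F.N F.n])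

/-- The time before the last part. -/
def bC (x : ℕ) : ℕ := 416 * x ^ 4 + 1232 * x ^ 3 + 736 * x ^ 2 + 102 * x + 52

theorem prog_eval (F : CNF) :
    EvalLe prog (only .inp (encF F)) (only .out (encG (red F)))
      (3 * bC (encF F).length + 16 * (encF F).length + 6) := by
  obtain ⟨N, n, hN, hn, S⟩ := F
  obtain ⟨x, hx⟩ : ∃ x, x = (encF ⟨N, n, hN, hn, S⟩).length := ⟨_, rfl⟩
  have hx2 : x = N + n + 2 + N * (n + n) := by rw [hx, length_encF]
  rw [← hx]
  have e0 : N * (n + n) = n * N + n * N := by ring
  have hNx : N ≤ x := by omega
  have hnx : n ≤ x := by omega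
  have hnN : n * N ≤ x := by omega
  have hmx : m N n ≤ 4 * x := by
    rw [m_val]
    omega
  have h1 := pInit1_eval N n (List.ofFn fun j => bits S j true ++ bits S j false).flatten
  have h2 := pInit2_eval (N := N) (n := n) (x := x)
    (List.ofFn fun j => bits S j true ++ bits S j false).flatten hNx hnx hnN
  have h3 := pTop_eval (N := N) (n := n) (x := x) hN hn
    (List.ofFn fun j => bits S j true ++ bits S j false).flatten hNx hnN
  have h4 := pLoop_eval (N := N) (n := n) (x := x) (fun j => bits S j true)
    (fun j => bits S j false) (fun j => length_bits S j true) (fun j => length_bits S j false)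
    (rep (L N n) w4 ++ (rep N [true] ++ [false])).reverse hNx hnx hnN hmx
  have h5 := (pNum_em (x := x) hN hn (base N n [] ((List.ofFn fun j =>
    codeA N n (bits S j true) (bits S j false)).flatten.reverse ++
      (rep (L N n) w4 ++ (rep N [true] ++ [false])).reverse)) rfl rfl rfl hNx hnN).run
  have e1 : (un 3 ++ ([N, q2 N n, q3 N n].map un).flatten).reverse ++
      (base N n [] ((List.ofFn fun j => codeA N n (bits S j true) (bits S j false)).flatten.reverse
        ++ (rep (L N n) w4 ++ (rep N [true] ++ [false])).reverse)) .aux =
      (encG (red ⟨N, n, hN, hn, S⟩)).reverse := by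
    unfold encG red
    simp only [code_T hN hn, List.length_cons, List.length_nil, Nat.zero_add, Nat.reduceAdd,
      base, codeA, List.reverse_append, List.append_assoc]
  rw [base_aux, e1] at h5
  have h6 := h1.seq (h2.seq (h3.seq (h4.seq h5)))
  have hN2 : N * (bJ x + 4) ≤ x * (bJ x + 4) := Nat.mul_le_mul_right _ hNx
  have hN3 : x * (bJ x + 4) = 416 * x ^ 4 + 1232 * x ^ 3 + 730 * x ^ 2 + 20 * x := by
    unfold bJ
    ring
  have hb : 2 * N + 2 * n + 4 + (6 * x ^ 2 + 26 * x + 11 + (15 * x + 8 +
      (N * (bJ x + 4) + 2 + (37 * x + 27)))) ≤ bC x := by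
    unfold bC
    omega
  have h7 : (encG (red ⟨N, n, hN, hn, S⟩)).length ≤ bC x := by
    obtain ⟨k, hk, h⟩ := h6
    have h8 := h.length_le .aux
    have e2 : (only R.inp (un N ++ (un n ++
        (List.ofFn fun j => bits S j true ++ bits S j false).flatten)) R.aux) = [] := by
      simp [only]
    rw [e2] at h8
    simp only [base, List.length_reverse, List.length_nil] at h8
    omega
  have h8 := pEnd_eval N n (encG (red ⟨N, n, hN, hn, S⟩))
  have h9 : EvalLe prog (only .inp (un N ++ (un n ++
      (List.ofFn fun j => bits S j true ++ bits S j false).flatten)))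
      (only .out (encG (red ⟨N, n, hN, hn, S⟩))) _ :=
    h1.seq (h2.seq (h3.seq (h4.seq (h5.seq h8))))
  have e3 : encF ⟨N, n, hN, hn, S⟩ = un N ++ (un n ++
      (List.ofFn fun j => bits S j true ++ bits S j false).flatten) := by
    unfold encF
    simp only [List.append_assoc]
  rw [e3]
  refine h9.mono ?_
  omega

/-- The bound for the running time. -/
noncomputable def pol : Polynomial ℕ :=
  3 * (416 * Polynomial.X ^ 4 + 1232 * Polynomial.X ^ 3 +
    736 * Polynomial.X ^ 2 + 102 * Polynomial.X + 52) + 16 * Polynomial.X + 6

theorem prog_eval_pol (F : CNF) : ∃ k ≤ pol.eval (encF F).length,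
    Eval prog (only .inp (encF F)) (only .out (encG (red F))) k := by
  obtain ⟨k, hk, h⟩ := prog_eval F
  refine ⟨k, ?_, h⟩
  refine hk.trans (le_of_eq ?_)
  unfold bC pol
  simp

/-- The reduction is computable in polynomial time. -/
theorem red_polyTime : Nonempty (Turing.TM2ComputableInPolyTime encF encG red) :=
  polyTime_of_eval prog .inp .out pol prog_eval_pol

/-- A decision procedure for games gives a decision procedure for the games of the reduction. -/
theorem red_polyTime_comp {g : Game → Bool}
    (hg : Nonempty (Turing.TM2ComputableInPolyTime encG (fun b : Bool => [b]) g)) :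
    Nonempty (Turing.TM2ComputableInPolyTime encF (fun b : Bool => [b]) fun F => g (red F)) :=
  polyTime_comp prog (by decide) pol prog_eval_pol hg

end Pool.Agent.Lib.MP_6e8fef_lc
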