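import Mathlib

open Finset

namespace Pool.Agent.Lib.MP_6e8fef_lc

/-! ## Question/Answer games on finite rooted trees -/

/-- Finite rooted trees: a root with `n` children, each the root of a tree. -/
inductive Tree : Type
  | node (n : ℕ) (c : Fin n → Tree) : Tree

/-- A vertex of a tree is given by its address: the list of the numbers of the children on the
path from the root. `t.deg a` is the out-degree of the vertex with address `a` (and `0` if there
is no such vertex); the vertex is internal if this is positive. -/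
def Tree.deg : Tree → List ℕ → ℕ
  | .node n _, [] => n
  | .node n c, i :: a => if h : i < n then (c ⟨i, h⟩).deg a else 0

/-- `f a = some i` means that the vertex `a` was asked and the answer was its `i`-th child.
`t.Leaf f a`: the path from the root to the vertex `a` is a path to a terminal vertex, and it is
consistent with all the answers in `f`. -/
def Tree.Leaf : Tree → (List ℕ → Option ℕ) → List ℕ → Prop
  | .node n _, _, [] => n = 0
  | .node n c, f, i :: a => ∃ h : i < n, (∀ j, f [] = some j → i = j) ∧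
      (c ⟨i, h⟩).Leaf (fun b => f (i :: b)) a

/-- Paul wins the game with question vector `q` on the tree `t`, when the answers in `f` have
already been given. -/
def PaulWins (t : Tree) : List ℕ → (List ℕ → Option ℕ) → Prop
  | [], f => ∃! a, t.Leaf f a
  | q :: qs, f => ∃ Q : Finset (List ℕ), Q.card ≤ q ∧ (∀ a ∈ Q, 0 < t.deg a) ∧
      ∀ g : List ℕ → ℕ, (∀ a ∈ Q, g a < t.deg a ∧ ∀ j, f a = some j → g a = j) →
        PaulWins t qs (fun a => if a ∈ Q then some (g a) else f a)

/-- The number of vertices of a tree. -/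
def Tree.size : Tree → ℕ
  | .node n c => 1 + ∑ i : Fin n, (c i).size

/-! ## The reduction from the satisfiability problem

An instance with `N` variables and `n` clauses is `S : Fin n → Finset (Fin N × Bool)`: the clause
`S c` contains the pair `(j, b)` if the literal `x_j = b` occurs in it. -/

/-- The tree with one vertex. -/
def leaf : Tree := .node 0 fun i => i.elim0

/-- A path of `k` vertices above the root of `t`, with a terminal vertex attached to each. -/
def cat : ℕ → Tree → Tree
  | 0, t => t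
  | k + 1, t => .node 2 fun i => if i = 0 then leaf else cat k t

/-- The length of the main path. -/
def L (N n : ℕ) : ℕ := n * N - 1

/-- The number of questions in the second round. -/
def q2 (N n : ℕ) : ℕ := (n + 2) * N + 1

/-- The number of questions in the third round. -/
def q3 (N n : ℕ) : ℕ := 2 * (q2 N n + L N n + 2) + 1

/-- A tree that has to be asked in the second round iff at most `q3 - c` questions are left for
it in the third round. -/
def E (N n c : ℕ) : Tree :=
  .node 2 fun i => if i = 0 then cat (q3 N n - L N n - 1) leaf else cat (L N n + 1 - c) leaf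

/-- The tree for the value `b` of the variable `j`. -/
def X {N n : ℕ} (S : Fin n → Finset (Fin N × Bool)) (j : Fin N) (b : Bool) : Tree :=
  .node (n + 2) fun i =>
    if h : (i : ℕ) < n then
      E N n (if (j, b) ∈ S ⟨i, h⟩ then i * N else (i + 1) * N)
    else E N n 0

/-- Half the number of children of the vertex for a variable. -/
def m (N n : ℕ) : ℕ := q2 N n + 1 + N

/-- The tree for the variable `j`: `m` copies of the tree for the value `true` and `m` copies of
the tree for the value `false`. -/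
def A {N n : ℕ} (S : Fin n → Finset (Fin N × Bool)) (j : Fin N) : Tree :=
  .node (2 * m N n) fun i => X S j (decide ((i : ℕ) < m N n))

/-- The tree of the reduction. -/
def T {N n : ℕ} (S : Fin n → Finset (Fin N × Bool)) : Tree :=
  cat (L N n) (.node N fun j => A S j)

/-! ## Auxiliary notions -/

/-- The questions in the subtree of the `i`-th child. -/
noncomputable def Qs (Q : Finset (List ℕ)) (i : ℕ) : Finset (List ℕ) :=
  Q.preimage (List.cons i) (List.cons_injective.injOn)

lemma mem_Qs {Q : Finset (List ℕ)} {i : ℕ} {a : List ℕ} : a ∈ Qs Q i ↔ i :: a ∈ Q := by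
  rw [Qs, Finset.mem_preimage]

lemma Qs_empty (i : ℕ) : Qs ∅ i = ∅ := by
  ext a; simp [mem_Qs]

lemma card_Qs (Q : Finset (List ℕ)) (n : ℕ) :
    (if [] ∈ Q then 1 else 0) + ∑ i : Fin n, (Qs Q i).card ≤ Q.card := by
  have h1 : ∑ i : Fin n, (Qs Q i).card
      = (univ.biUnion fun i : Fin n => (Qs Q i).image (List.cons (i : ℕ))).card := by
    rw [Finset.card_biUnion]
    · refine Finset.sum_congr rfl fun i _ => ?_
      rw [Finset.card_image_of_injective _ (fun _ _ h => (List.cons.inj h).2)]
    · intro i _ j _ hij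
      simp only [Finset.disjoint_left, Finset.mem_image, not_exists, not_and]
      rintro a ⟨b, _, rfl⟩ b' _ h
      exact hij (Fin.ext (List.cons.inj h).1.symm)
  have h2 : (univ.biUnion fun i : Fin n => (Qs Q i).image (List.cons (i : ℕ))) ⊆ Q.erase [] := by
    intro a ha
    simp only [Finset.mem_biUnion, Finset.mem_univ, true_and, Finset.mem_image] at ha
    obtain ⟨i, b, hb, rfl⟩ := ha
    rw [Finset.mem_erase]
    exact ⟨by simp, mem_Qs.1 hb⟩
  have h3 := Finset.card_le_card h2
  rw [h1]
  by_cases h : [] ∈ Q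
  · rw [if_pos h]
    have := Finset.card_erase_add_one h
    omega
  · rw [if_neg h]
    have := Finset.card_erase_le (s := Q) (a := ([] : List ℕ))
    omega

/-- Assembling the questions in the subtrees and at the root. -/
def asm (b : Bool) (n : ℕ) (Qc : Fin n → Finset (List ℕ)) : Finset (List ℕ) :=
  (if b then {[]} else ∅) ∪ univ.biUnion fun i : Fin n => (Qc i).image (List.cons (i : ℕ))

lemma nil_mem_asm {b : Bool} {n : ℕ} {Qc : Fin n → Finset (List ℕ)} :
    [] ∈ asm b n Qc ↔ b = true := by
  cases b <;> simp [asm]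

lemma cons_mem_asm {b : Bool} {n : ℕ} {Qc : Fin n → Finset (List ℕ)} {i : ℕ} {a : List ℕ} :
    i :: a ∈ asm b n Qc ↔ ∃ h : i < n, a ∈ Qc ⟨i, h⟩ := by
  have : i :: a ∈ asm b n Qc ↔ ∃ j : Fin n, a ∈ Qc j ∧ (j : ℕ) = i := by
    cases b <;> simp [asm]
  rw [this]
  constructor
  · rintro ⟨j, h, rfl⟩
    exact ⟨j.2, h⟩
  · rintro ⟨h, h'⟩
    exact ⟨⟨i, h⟩, h', rfl⟩

lemma Qs_asm (b : Bool) (n : ℕ) (Qc : Fin n → Finset (List ℕ)) (i : Fin n) :
    Qs (asm b n Qc) i = Qc i := by
  ext a
  rw [mem_Qs, cons_mem_asm]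
  exact ⟨fun ⟨_, h⟩ => h, fun h => ⟨i.2, h⟩⟩

lemma card_asm (b : Bool) (n : ℕ) (Qc : Fin n → Finset (List ℕ)) :
    (asm b n Qc).card ≤ (if b then 1 else 0) + ∑ i, (Qc i).card := by
  unfold asm
  refine (Finset.card_union_le _ _).trans (Nat.add_le_add ?_ ?_)
  · cases b <;> simp
  · refine Finset.card_biUnion_le.trans (Finset.sum_le_sum fun i _ => Finset.card_image_le)

/-- The answers in the subtree of the `i`-th child. -/
def sh (f : List ℕ → Option ℕ) (i : ℕ) : List ℕ → Option ℕ := fun a => f (i :: a)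

/-- The answers after a round. -/
def upd (f : List ℕ → Option ℕ) (Q : Finset (List ℕ)) (g : List ℕ → ℕ) : List ℕ → Option ℕ :=
  fun a => if a ∈ Q then some (g a) else f a

lemma sh_upd (f : List ℕ → Option ℕ) (Q : Finset (List ℕ)) (g : List ℕ → ℕ) (i : ℕ) :
    sh (upd f Q g) i = upd (sh f i) (Qs Q i) (fun a => g (i :: a)) := by
  funext a
  simp [sh, upd, mem_Qs]

/-- The answers name children. -/
def Legit (t : Tree) (f : List ℕ → Option ℕ) : Prop := ∀ a j, f a = some j → j < t.deg a

/-- The new answers are legal. -/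
def OkG (t : Tree) (f : List ℕ → Option ℕ) (Q : Finset (List ℕ)) (g : List ℕ → ℕ) : Prop :=
  ∀ a ∈ Q, g a < t.deg a ∧ ∀ j, f a = some j → g a = j

lemma deg_nil (n : ℕ) (c : Fin n → Tree) : (Tree.node n c).deg [] = n := rfl

lemma deg_cons (n : ℕ) (c : Fin n → Tree) (i : Fin n) (a : List ℕ) :
    (Tree.node n c).deg ((i : ℕ) :: a) = (c i).deg a := by
  simp [Tree.deg, i.2]

lemma Legit.child {n : ℕ} {c : Fin n → Tree} {f : List ℕ → Option ℕ} (h : Legit (.node n c) f)
    (i : Fin n) : Legit (c i) (sh f i) := by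
  intro a j hj
  have := h (i :: a) j hj
  rwa [deg_cons] at this

lemma OkG.child {n : ℕ} {c : Fin n → Tree} {f : List ℕ → Option ℕ} {Q : Finset (List ℕ)}
    {g : List ℕ → ℕ} (h : OkG (.node n c) f Q g) (i : Fin n) :
    OkG (c i) (sh f i) (Qs Q i) (fun a => g (i :: a)) := by
  intro a ha
  have := h (i :: a) (mem_Qs.1 ha)
  rwa [deg_cons] at this

lemma Legit.upd {t : Tree} {f : List ℕ → Option ℕ} {Q : Finset (List ℕ)}
    {g : List ℕ → ℕ} (h : Legit t f) (h' : OkG t f Q g) : Legit t (upd f Q g) := by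
  intro a j hj
  unfold MP_6e8fef_lc.upd at hj
  split_ifs at hj with ha
  · have := (h' a ha).1
    simp only [Option.some.injEq] at hj
    omega
  · exact h a j hj

/-- The number of consistent branching vertices that have not been asked. -/
def cnt : Tree → (List ℕ → Option ℕ) → ℕ
  | .node n c, f =>
    match f [] with
    | some j => if h : j < n then cnt (c ⟨j, h⟩) (sh f j) else 0
    | none => (if 2 ≤ n then 1 else 0) + ∑ i : Fin n, cnt (c i) (sh f i)

lemma cnt_some {n : ℕ} {c : Fin n → Tree} {f : List ℕ → Option ℕ} (j : Fin n)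
    (h : f [] = some (j : ℕ)) : cnt (.node n c) f = cnt (c j) (sh f j) := by
  simp [cnt, h]

lemma cnt_none {n : ℕ} {c : Fin n → Tree} {f : List ℕ → Option ℕ}
    (h : f [] = none) : cnt (.node n c) f
      = (if 2 ≤ n then 1 else 0) + ∑ i : Fin n, cnt (c i) (sh f i) := by
  simp [cnt, h]

/-- The maximal number of consistent branching vertices that have not been asked after a round
with the questions `Q`. -/
noncomputable def rem : Tree → (List ℕ → Option ℕ) → Finset (List ℕ) → ℕ
  | .node n c, f, Q =>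
    match f [] with
    | some j => if h : j < n then rem (c ⟨j, h⟩) (sh f j) (Qs Q j) else 0
    | none => if [] ∈ Q then univ.sup (fun i : Fin n => rem (c i) (sh f i) (Qs Q i))
      else (if 2 ≤ n then 1 else 0) + ∑ i : Fin n, rem (c i) (sh f i) (Qs Q i)

lemma rem_some {n : ℕ} {c : Fin n → Tree} {f : List ℕ → Option ℕ} {Q : Finset (List ℕ)}
    (j : Fin n) (h : f [] = some (j : ℕ)) :
    rem (.node n c) f Q = rem (c j) (sh f j) (Qs Q j) := by
  simp [rem, h]

lemma rem_ask {n : ℕ} {c : Fin n → Tree} {f : List ℕ → Option ℕ} {Q : Finset (List ℕ)}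
    (h : f [] = none) (hQ : [] ∈ Q) :
    rem (.node n c) f Q = univ.sup (fun i : Fin n => rem (c i) (sh f i) (Qs Q i)) := by
  simp [rem, h, hQ]

lemma rem_unask {n : ℕ} {c : Fin n → Tree} {f : List ℕ → Option ℕ} {Q : Finset (List ℕ)}
    (h : f [] = none) (hQ : [] ∉ Q) :
    rem (.node n c) f Q
      = (if 2 ≤ n then 1 else 0) + ∑ i : Fin n, rem (c i) (sh f i) (Qs Q i) := by
  simp [rem, h, hQ]

lemma rem_empty (t : Tree) (f : List ℕ → Option ℕ) : rem t f ∅ = cnt t f := by
  induction t generalizing f with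
  | node n c ih =>
    rcases hf : f [] with _ | j
    · rw [rem_unask hf (by simp), cnt_none hf]
      simp only [Qs_empty, ih]
    · by_cases hj : j < n
      · rw [rem_some ⟨j, hj⟩ hf, cnt_some ⟨j, hj⟩ hf]
        simp only [Qs_empty, ih]
      · simp [rem, cnt, hf, hj]

/-- The answer at the root after a round. -/
lemma upd_nil_mem {f : List ℕ → Option ℕ} {Q : Finset (List ℕ)} {g : List ℕ → ℕ} (h : [] ∈ Q) :
    upd f Q g [] = some (g []) := by simp [upd, h]

lemma upd_nil_not_mem {f : List ℕ → Option ℕ} {Q : Finset (List ℕ)} {g : List ℕ → ℕ}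
    (h : [] ∉ Q) : upd f Q g [] = f [] := by simp [upd, h]

lemma upd_nil_some {t : Tree} {f : List ℕ → Option ℕ} {Q : Finset (List ℕ)} {g : List ℕ → ℕ}
    (h : OkG t f Q g) {j : ℕ} (hj : f [] = some j) : upd f Q g [] = some j := by
  by_cases hQ : [] ∈ Q
  · rw [upd_nil_mem hQ, (h _ hQ).2 j hj]
  · rw [upd_nil_not_mem hQ, hj]

/-- (G1) -/
lemma cnt_le_rem (t : Tree) (f : List ℕ → Option ℕ) (Q : Finset (List ℕ)) (g : List ℕ → ℕ)
    (hf : Legit t f) (hg : OkG t f Q g) : cnt t (upd f Q g) ≤ rem t f Q := by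
  induction t generalizing f Q g with
  | node n c ih =>
    rcases h : f [] with _ | j
    · by_cases hQ : [] ∈ Q
      · have hlt : g [] < n := (hg _ hQ).1
        rw [rem_ask h hQ, cnt_some ⟨g [], hlt⟩ (upd_nil_mem hQ), sh_upd]
        exact (ih ⟨g [], hlt⟩ _ _ _ (hf.child ⟨g [], hlt⟩) (hg.child ⟨g [], hlt⟩)).trans
          (Finset.le_sup (f := fun i : Fin n => rem (c i) (sh f i) (Qs Q i))
            (Finset.mem_univ (⟨g [], hlt⟩ : Fin n)))
      · rw [rem_unask h hQ, cnt_none (by rw [upd_nil_not_mem hQ, h])]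
        refine Nat.add_le_add_left (Finset.sum_le_sum fun i _ => ?_) _
        rw [sh_upd]
        exact ih i _ _ _ (hf.child i) (hg.child i)
    · have hlt : j < n := hf [] j h
      rw [rem_some ⟨j, hlt⟩ h, cnt_some ⟨j, hlt⟩ (upd_nil_some hg h), sh_upd]
      exact ih ⟨j, hlt⟩ _ _ _ (hf.child ⟨j, hlt⟩) (hg.child ⟨j, hlt⟩)

/-- (G2) -/
lemma exists_rem_le_cnt (t : Tree) (f : List ℕ → Option ℕ) (Q : Finset (List ℕ))
    (hf : Legit t f) (hQ : ∀ a ∈ Q, 0 < t.deg a) :
    ∃ g, OkG t f Q g ∧ rem t f Q ≤ cnt t (upd f Q g) := by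
  induction t generalizing f Q with
  | node n c ih =>
    have hQc : ∀ i : Fin n, ∀ a ∈ Qs Q i, 0 < (c i).deg a := by
      intro i a ha
      have := hQ _ (mem_Qs.1 ha)
      rwa [deg_cons] at this
    choose G hG1 hG2 using fun i : Fin n => ih i (sh f i) (Qs Q i) (hf.child i) (hQc i)
    -- the answers, given the answer `r` at the root
    let g : ℕ → List ℕ → ℕ := fun r a => match a with
      | [] => r
      | i :: a => if h : i < n then G ⟨i, h⟩ a else 0
    have hgs : ∀ r, ∀ i : Fin n, (fun a => g r ((i : ℕ) :: a)) = G i := by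
      intro r i; funext a; simp [g]
    have hok : ∀ r, (r < n ∧ ∀ j, f [] = some j → r = j) ∨ [] ∉ Q →
        OkG (.node n c) f Q (g r) := by
      intro r hr a ha
      rcases a with _ | ⟨i, a⟩
      · rcases hr with hr | hr
        · exact hr
        · exact absurd ha hr
      · have h0 := hQ _ ha
        by_cases hi : i < n
        · have h1 := hG1 ⟨i, hi⟩ a (mem_Qs.2 ha)
          have h2 : g r (i :: a) = G ⟨i, hi⟩ a := by simp [g, hi]
          have h3 := deg_cons n c ⟨i, hi⟩ a
          simp only at h3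
          rw [h2, h3]
          exact h1
        · simp [Tree.deg, hi] at h0
    have hsh : ∀ r, ∀ i : Fin n, sh (upd f Q (g r)) i = upd (sh f i) (Qs Q i) (G i) := by
      intro r i
      rw [sh_upd, hgs r]
    rcases h : f [] with _ | j
    · by_cases hm : [] ∈ Q
      · have hn : 0 < n := hQ _ hm
        have : Nonempty (Fin n) := ⟨⟨0, hn⟩⟩
        obtain ⟨i, -, hi⟩ := Finset.exists_mem_eq_sup (univ : Finset (Fin n))
          ⟨⟨0, hn⟩, Finset.mem_univ _⟩ (fun i : Fin n => rem (c i) (sh f i) (Qs Q i))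
        refine ⟨g i, hok i (Or.inl ⟨i.2, by simp [h]⟩), ?_⟩
        rw [rem_ask h hm, hi, cnt_some i (by rw [upd_nil_mem hm]), hsh]
        exact hG2 i
      · refine ⟨g 0, hok 0 (Or.inr hm), ?_⟩
        rw [rem_unask h hm, cnt_none (by rw [upd_nil_not_mem hm, h])]
        refine Nat.add_le_add_left (Finset.sum_le_sum fun i _ => ?_) _
        rw [hsh]
        exact hG2 i
    · have hlt : j < n := hf [] j h
      have hok' := hok j (Or.inl ⟨hlt, fun j' hj' => by rw [h] at hj'; simpa using hj'⟩)
      refine ⟨g j, hok', ?_⟩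
      rw [rem_some ⟨j, hlt⟩ h, cnt_some ⟨j, hlt⟩ (upd_nil_some hok' h)]
      have := hsh j ⟨j, hlt⟩
      simp only at this
      rw [this]
      exact hG2 ⟨j, hlt⟩

/-- (G5) -/
lemma leaf_cnt (t : Tree) (f : List ℕ → Option ℕ) (hf : Legit t f) :
    (∃ a, t.Leaf f a) ∧ (cnt t f = 0 → ∀ a b, t.Leaf f a → t.Leaf f b → a = b) ∧
      (cnt t f ≠ 0 → ∃ a b, a ≠ b ∧ t.Leaf f a ∧ t.Leaf f b) := by
  induction t generalizing f with
  | node n c ih =>
    have ih' := fun i : Fin n => ih i (sh f i) (hf.child i)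
    have key : ∀ i : Fin n, (∀ j, f [] = some j → (i : ℕ) = j) → ∀ a,
        (c i).Leaf (sh f i) a → (Tree.node n c).Leaf f ((i : ℕ) :: a) := by
      intro i hi a ha
      exact ⟨i.2, hi, ha⟩
    rcases h : f [] with _ | j
    · rw [cnt_none h]
      refine ⟨?_, ?_, ?_⟩
      · rcases Nat.eq_zero_or_pos n with rfl | hn
        · exact ⟨[], rfl⟩
        · obtain ⟨a, ha⟩ := (ih' ⟨0, hn⟩).1
          exact ⟨_, key ⟨0, hn⟩ (by simp [h]) a ha⟩
      · intro h0 a b ha hb
        have hn : ¬ 2 ≤ n := by
          intro h2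
          rw [if_pos h2] at h0
          omega
        have hs : ∀ i : Fin n, cnt (c i) (sh f i) = 0 := by
          intro i
          have := Finset.single_le_sum (f := fun i : Fin n => cnt (c i) (sh f i))
            (fun _ _ => Nat.zero_le _) (Finset.mem_univ i)
          omega
        rcases a with _ | ⟨i, a⟩ <;> rcases b with _ | ⟨k, b⟩
        · rfl
        · obtain ⟨hk, -⟩ := hb
          have : n = 0 := ha
          omega
        · obtain ⟨hk, -⟩ := ha
          have : n = 0 := hb
          omega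
        · obtain ⟨hi, -, ha⟩ := ha
          obtain ⟨hk, -, hb⟩ := hb
          have : i = k := by omega
          subst this
          rw [(ih' ⟨i, hi⟩).2.1 (hs _) a b ha hb]
      · intro h0
        by_cases h2 : 2 ≤ n
        · obtain ⟨a, ha⟩ := (ih' ⟨0, by omega⟩).1
          obtain ⟨b, hb⟩ := (ih' ⟨1, by omega⟩).1
          refine ⟨_, _, ?_, key ⟨0, by omega⟩ (by simp [h]) a ha,
            key ⟨1, by omega⟩ (by simp [h]) b hb⟩
          simp
        · rw [if_neg h2] at h0
          obtain ⟨i, hi⟩ : ∃ i : Fin n, cnt (c i) (sh f i) ≠ 0 := by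
            by_contra hne
            push Not at hne
            exact h0 (by simp [hne])
          obtain ⟨a, b, hab, ha, hb⟩ := (ih' i).2.2 hi
          exact ⟨_, _, by simpa using hab, key i (by simp [h]) a ha, key i (by simp [h]) b hb⟩
    · have hlt : j < n := hf [] j h
      rw [cnt_some ⟨j, hlt⟩ h]
      have hj' : ∀ j', f [] = some j' → (((⟨j, hlt⟩ : Fin n)) : ℕ) = j' := by
        intro j' hj'
        rw [h] at hj'
        simpa using hj'
      refine ⟨?_, ?_, ?_⟩
      · obtain ⟨a, ha⟩ := (ih' ⟨j, hlt⟩).1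
        exact ⟨_, key ⟨j, hlt⟩ hj' a ha⟩
      · intro h0 a b ha hb
        rcases a with _ | ⟨i, a⟩ <;> rcases b with _ | ⟨k, b⟩
        · rfl
        · have : n = 0 := ha
          omega
        · have : n = 0 := hb
          omega
        · obtain ⟨hi, hij, ha⟩ := ha
          obtain ⟨hk, hkj, hb⟩ := hb
          have h1 : i = j := hij j h
          have h2 : k = j := hkj j h
          subst h1
          subst h2
          rw [(ih' ⟨_, hlt⟩).2.1 h0 a b ha hb]
      · intro h0
        obtain ⟨a, b, hab, ha, hb⟩ := (ih' ⟨j, hlt⟩).2.2 h0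
        exact ⟨_, _, by simpa using hab, key ⟨j, hlt⟩ hj' a ha, key ⟨j, hlt⟩ hj' b hb⟩

lemma existsUnique_leaf (t : Tree) (f : List ℕ → Option ℕ) (hf : Legit t f) :
    (∃! a, t.Leaf f a) ↔ cnt t f = 0 := by
  obtain ⟨h1, h2, h3⟩ := leaf_cnt t f hf
  constructor
  · rintro ⟨a, _, hu⟩
    by_contra hne
    obtain ⟨x, y, hxy, hx, hy⟩ := h3 hne
    exact hxy ((hu x hx).trans (hu y hy).symm)
  · intro h0
    obtain ⟨a, ha⟩ := h1
    exact ⟨a, ha, fun b hb => h2 h0 b a hb ha⟩

/-- (G3), first part -/
lemma cnt_le_card (t : Tree) (f : List ℕ → Option ℕ) (Q : Finset (List ℕ))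
    (h : rem t f Q = 0) (hf : Legit t f) : cnt t f ≤ Q.card := by
  induction t generalizing f Q with
  | node n c ih =>
    have hcard := card_Qs Q n
    rcases h' : f [] with _ | j
    · by_cases hQ : [] ∈ Q
      · rw [rem_ask h' hQ] at h
        rw [if_pos hQ] at hcard
        rw [cnt_none h']
        have hi : ∀ i : Fin n, cnt (c i) (sh f i) ≤ (Qs Q i).card := by
          intro i
          refine ih i _ _ ?_ (hf.child i)
          have := Finset.le_sup (f := fun i : Fin n => rem (c i) (sh f i) (Qs Q i))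
            (Finset.mem_univ i)
          rw [h] at this
          exact Nat.le_zero.1 this
        have := Finset.sum_le_sum fun i (_ : i ∈ (univ : Finset (Fin n))) => hi i
        split_ifs <;> omega
      · rw [rem_unask h' hQ] at h
        rw [if_neg hQ] at hcard
        rw [cnt_none h']
        have hi : ∀ i : Fin n, cnt (c i) (sh f i) ≤ (Qs Q i).card := by
          intro i
          refine ih i _ _ ?_ (hf.child i)
          have := Finset.single_le_sum (f := fun i : Fin n => rem (c i) (sh f i) (Qs Q i))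
            (fun _ _ => Nat.zero_le _) (Finset.mem_univ i)
          omega
        have := Finset.sum_le_sum fun i (_ : i ∈ (univ : Finset (Fin n))) => hi i
        split_ifs at h ⊢ <;> omega
    · have hlt : j < n := hf [] j h'
      rw [rem_some ⟨j, hlt⟩ h'] at h
      rw [cnt_some ⟨j, hlt⟩ h']
      have h1 := ih ⟨j, hlt⟩ _ _ h (hf.child ⟨j, hlt⟩)
      have h2 := Finset.single_le_sum (f := fun i : Fin n => (Qs Q i).card)
            (fun _ _ => Nat.zero_le _) (Finset.mem_univ (⟨j, hlt⟩ : Fin n))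
      have h3 : cnt (c ⟨j, hlt⟩) (sh f (⟨j, hlt⟩ : Fin n)) ≤ (Qs Q j).card := h1
      have h4 : (Qs Q j).card ≤ ∑ i : Fin n, (Qs Q i).card := h2
      exact h3.trans (h4.trans ((Nat.le_add_left _ _).trans hcard))

/-- `Need t f θ k`: with `k` questions, Paul can make sure that at most `θ` questions remain. -/
def Need (t : Tree) (f : List ℕ → Option ℕ) (θ k : ℕ) : Prop :=
  ∃ Q : Finset (List ℕ), Q.card ≤ k ∧ (∀ a ∈ Q, 0 < t.deg a) ∧ rem t f Q ≤ θ

lemma asm_deg {b : Bool} {n : ℕ} {Qc : Fin n → Finset (List ℕ)} {c : Fin n → Tree}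
    (hn : b = true → 0 < n) (h : ∀ i, ∀ a ∈ Qc i, 0 < (c i).deg a) :
    ∀ a ∈ asm b n Qc, 0 < (Tree.node n c).deg a := by
  intro a ha
  rcases a with _ | ⟨i, a⟩
  · exact hn (nil_mem_asm.1 ha)
  · obtain ⟨hi, ha⟩ := cons_mem_asm.1 ha
    have h3 := deg_cons n c ⟨i, hi⟩ a
    simp only at h3
    rw [h3]
    exact h _ _ ha

lemma need_ask {n : ℕ} {c : Fin n → Tree} {f : List ℕ → Option ℕ} {θ : ℕ} {k : Fin n → ℕ}
    (hf : f [] = none) (hn : 0 < n) (h : ∀ i, Need (c i) (sh f i) θ (k i)) :
    Need (.node n c) f θ (1 + ∑ i, k i) := by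
  choose Qc h1 h2 h3 using h
  refine ⟨asm true n Qc, ?_, asm_deg (fun _ => hn) h2, ?_⟩
  · refine (card_asm true n Qc).trans ?_
    have := Finset.sum_le_sum fun i (_ : i ∈ (univ : Finset (Fin n))) => h1 i
    simp only [if_true]
    omega
  · rw [rem_ask hf (nil_mem_asm.2 rfl)]
    refine Finset.sup_le fun i _ => ?_
    rw [Qs_asm]
    exact h3 i

lemma need_unask {n : ℕ} {c : Fin n → Tree} {f : List ℕ → Option ℕ} {θ k : Fin n → ℕ}
    (hf : f [] = none) (h : ∀ i, Need (c i) (sh f i) (θ i) (k i)) :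
    Need (.node n c) f ((if 2 ≤ n then 1 else 0) + ∑ i, θ i) (∑ i, k i) := by
  choose Qc h1 h2 h3 using h
  refine ⟨asm false n Qc, ?_, asm_deg (fun h => by simp at h) h2, ?_⟩
  · refine (card_asm false n Qc).trans ?_
    have := Finset.sum_le_sum fun i (_ : i ∈ (univ : Finset (Fin n))) => h1 i
    simp only [Bool.false_eq_true, if_false]
    omega
  · rw [rem_unask hf (fun h => by have := nil_mem_asm.1 h; simp at this)]
    refine Nat.add_le_add_left (Finset.sum_le_sum fun i _ => ?_) _
    rw [Qs_asm]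
    exact h3 i

lemma need_some {n : ℕ} {c : Fin n → Tree} {f : List ℕ → Option ℕ} {θ k : ℕ} (j : Fin n)
    (hf : f [] = some (j : ℕ)) (h : Need (c j) (sh f j) θ k) :
    Need (.node n c) f θ k := by
  obtain ⟨Q, h1, h2, h3⟩ := h
  refine ⟨asm false n (fun i => if i = j then Q else ∅), ?_, ?_, ?_⟩
  · refine (card_asm false n _).trans ?_
    have : ∑ i : Fin n, (if i = j then Q else ∅).card = Q.card := by
      rw [Finset.sum_eq_single j]
      · simp
      · intro i _ hi; simp [hi]
      · simp
    simp only [Bool.false_eq_true, if_false]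
    omega
  · refine asm_deg (fun h => by simp at h) ?_
    intro i a ha
    by_cases hi : i = j
    · subst hi
      simp only [if_true] at ha
      exact h2 a ha
    · simp [hi] at ha
  · rw [rem_some j hf, Qs_asm]
    simpa using h3

lemma Need.mono {t : Tree} {f : List ℕ → Option ℕ} {θ θ' k k' : ℕ} (h : Need t f θ k)
    (h1 : θ ≤ θ') (h2 : k ≤ k') : Need t f θ' k' := by
  obtain ⟨Q, a, b, c⟩ := h
  exact ⟨Q, a.trans h2, b, c.trans h1⟩

lemma need_zero (t : Tree) (f : List ℕ → Option ℕ) : Need t f (cnt t f) 0 :=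
  ⟨∅, by simp, by simp, (rem_empty t f).le⟩

/-- (G3), second part -/
lemma need_cnt (t : Tree) (f : List ℕ → Option ℕ) (hf : Legit t f) : Need t f 0 (cnt t f) := by
  induction t generalizing f with
  | node n c ih =>
    rcases h' : f [] with _ | j
    · rw [cnt_none h']
      by_cases hn : 2 ≤ n
      · rw [if_pos hn]
        exact need_ask h' (by omega) fun i => ih i _ (hf.child i)
      · rw [if_neg hn]
        have := need_unask (θ := fun _ => 0) h' fun i => ih i _ (hf.child i)
        rw [if_neg hn] at this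
        simpa using this
    · have hlt : j < n := hf [] j h'
      rw [cnt_some ⟨j, hlt⟩ h']
      exact need_some ⟨j, hlt⟩ h' (ih ⟨j, hlt⟩ _ (hf.child ⟨j, hlt⟩))

lemma paulWins_one (t : Tree) (q : ℕ) (f : List ℕ → Option ℕ) (hf : Legit t f) :
    PaulWins t [q] f ↔ cnt t f ≤ q := by
  constructor
  · rintro ⟨Q, h1, h2, h3⟩
    obtain ⟨g, hg1, hg2⟩ := exists_rem_le_cnt t f Q hf h2
    have := h3 g hg1
    have h4 : cnt t (upd f Q g) = 0 := (existsUnique_leaf t _ (hf.upd hg1)).1 this
    have h5 : rem t f Q = 0 := by omega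
    exact (cnt_le_card t f Q h5 hf).trans h1
  · intro h
    obtain ⟨Q, h1, h2, h3⟩ := (need_cnt t f hf).mono le_rfl h
    refine ⟨Q, h1, h2, fun g hg => ?_⟩
    have := cnt_le_rem t f Q g hf hg
    exact (existsUnique_leaf t _ (hf.upd hg)).2 (by omega)

lemma paulWins_two (t : Tree) (q q' : ℕ) (f : List ℕ → Option ℕ) (hf : Legit t f) :
    PaulWins t [q, q'] f ↔ Need t f q' q := by
  constructor
  · rintro ⟨Q, h1, h2, h3⟩
    obtain ⟨g, hg1, hg2⟩ := exists_rem_le_cnt t f Q hf h2
    have := (paulWins_one t q' _ (hf.upd hg1)).1 (h3 g hg1)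
    exact ⟨Q, h1, h2, hg2.trans this⟩
  · rintro ⟨Q, h1, h2, h3⟩
    refine ⟨Q, h1, h2, fun g hg => ?_⟩
    exact (paulWins_one t q' _ (hf.upd hg)).2 ((cnt_le_rem t f Q g hf hg).trans h3)

lemma legit_none (t : Tree) : Legit t (fun _ => none) := by
  intro a j h
  simp at h

lemma paulWins_three (t : Tree) (q q' q'' : ℕ) :
    PaulWins t [q, q', q''] (fun _ => none) ↔
      ∃ Q : Finset (List ℕ), Q.card ≤ q ∧ (∀ a ∈ Q, 0 < t.deg a) ∧
        ∀ g : List ℕ → ℕ, (∀ a ∈ Q, g a < t.deg a) → Need t (upd (fun _ => none) Q g) q'' q' := by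
  constructor
  · rintro ⟨Q, h1, h2, h3⟩
    refine ⟨Q, h1, h2, fun g hg => ?_⟩
    have hok : OkG t (fun _ => none) Q g := fun a ha => ⟨hg a ha, by simp⟩
    exact (paulWins_two t q' q'' _ ((legit_none t).upd hok)).1 (h3 g hok)
  · rintro ⟨Q, h1, h2, h3⟩
    refine ⟨Q, h1, h2, fun g hg => ?_⟩
    exact (paulWins_two t q' q'' _ ((legit_none t).upd hg)).2 (h3 g fun a ha => (hg a ha).1)

/-! ## The pieces of the reduction -/

/-- No answers. -/
def ν : List ℕ → Option ℕ := fun _ => none

lemma sh_ν (i : ℕ) : sh ν i = ν := rfl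

lemma card_Qs_le (Q : Finset (List ℕ)) (i : ℕ) : (Qs Q i).card ≤ Q.card := by
  rw [← Finset.card_image_of_injective (Qs Q i) (List.cons_injective (a := i))]
  refine Finset.card_le_card fun a ha => ?_
  obtain ⟨b, hb, rfl⟩ := Finset.mem_image.1 ha
  exact mem_Qs.1 hb

lemma child_le {n : ℕ} {c : Fin n → Tree} {f : List ℕ → Option ℕ} {Q : Finset (List ℕ)}
    (h : f [] = none) (i : Fin n) :
    rem (c i) (sh f i) (Qs Q i) ≤ rem (.node n c) f Q := by
  by_cases hQ : [] ∈ Q
  · rw [rem_ask h hQ]
    exact Finset.le_sup (f := fun i : Fin n => rem (c i) (sh f i) (Qs Q i)) (Finset.mem_univ i)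
  · rw [rem_unask h hQ]
    exact (Finset.single_le_sum (f := fun i : Fin n => rem (c i) (sh f i) (Qs Q i))
      (fun _ _ => Nat.zero_le _) (Finset.mem_univ i)).trans (Nat.le_add_left _ _)

lemma two_children {n : ℕ} {c : Fin n → Tree} {f : List ℕ → Option ℕ} {Q : Finset (List ℕ)}
    (h : f [] = none) (hQ : [] ∉ Q) (i j : Fin n) (hij : i ≠ j) :
    rem (c i) (sh f i) (Qs Q i) + rem (c j) (sh f j) (Qs Q j) + 1 ≤ rem (.node n c) f Q := by
  rw [rem_unask h hQ]
  have hn : 2 ≤ n := by
    by_contra hn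
    apply hij
    ext
    omega
  have := Finset.add_le_sum (f := fun i : Fin n => rem (c i) (sh f i) (Qs Q i))
    (fun _ _ => Nat.zero_le _) (Finset.mem_univ i) (Finset.mem_univ j) hij
  rw [if_pos hn]
  omega

lemma rem_leaf (f : List ℕ → Option ℕ) (Q : Finset (List ℕ)) : rem leaf f Q = 0 := by
  unfold leaf
  rcases h : f [] with _ | j
  · by_cases hQ : [] ∈ Q
    · rw [rem_ask h hQ]; simp
    · rw [rem_unask h hQ]; simp
  · simp [rem, h]

lemma cat_succ (k : ℕ) (t : Tree) :
    cat (k + 1) t = .node 2 (fun i => if i = 0 then leaf else cat k t) := rfl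

lemma cat_rem_ask {k : ℕ} {t : Tree} {f : List ℕ → Option ℕ} {Q : Finset (List ℕ)}
    (h : f [] = none) (hQ : [] ∈ Q) :
    rem (cat (k + 1) t) f Q = rem (cat k t) (sh f 1) (Qs Q 1) := by
  rw [cat_succ, rem_ask h hQ, Fin.univ_succ]
  simp [rem_leaf]

lemma cat_rem_unask {k : ℕ} {t : Tree} {f : List ℕ → Option ℕ} {Q : Finset (List ℕ)}
    (h : f [] = none) (hQ : [] ∉ Q) :
    rem (cat (k + 1) t) f Q = 1 + rem (cat k t) (sh f 1) (Qs Q 1) := by
  rw [cat_succ, rem_unask h hQ, Fin.sum_univ_two]
  simp [rem_leaf]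

lemma cat_rem_some {k : ℕ} {t : Tree} {f : List ℕ → Option ℕ} {Q : Finset (List ℕ)}
    (h : f [] = some 1) :
    rem (cat (k + 1) t) f Q = rem (cat k t) (sh f 1) (Qs Q 1) := by
  rw [cat_succ, rem_some (1 : Fin 2) (by simpa using h)]
  simp

/-- The questions below the `k`-th vertex of the path. -/
noncomputable def Qsp : ℕ → Finset (List ℕ) → Finset (List ℕ)
  | 0, Q => Q
  | k + 1, Q => Qsp k (Qs Q 1)

/-- The answers below the `k`-th vertex of the path. -/
def shp : ℕ → (List ℕ → Option ℕ) → (List ℕ → Option ℕ)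
  | 0, f => f
  | k + 1, f => shp k (sh f 1)

lemma mem_Qsp {k : ℕ} {Q : Finset (List ℕ)} {a : List ℕ} :
    a ∈ Qsp k Q ↔ List.replicate k 1 ++ a ∈ Q := by
  induction k generalizing Q with
  | zero => simp [Qsp]
  | succ k ih => rw [Qsp, ih, mem_Qs, List.replicate_succ, List.cons_append]

lemma shp_apply (k : ℕ) (f : List ℕ → Option ℕ) (a : List ℕ) :
    shp k f a = f (List.replicate k 1 ++ a) := by
  induction k generalizing f with
  | zero => simp [shp]
  | succ k ih => rw [shp, ih, List.replicate_succ, List.cons_append, sh]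

lemma card_Qsp_le (k : ℕ) (Q : Finset (List ℕ)) : (Qsp k Q).card ≤ Q.card := by
  induction k generalizing Q with
  | zero => exact le_rfl
  | succ k ih => exact (ih _).trans (card_Qs_le _ _)

lemma spineA {k : ℕ} {t : Tree} {f : List ℕ → Option ℕ} {Q : Finset (List ℕ)}
    (h : ∀ i < k, f (List.replicate i 1) = none ∨ f (List.replicate i 1) = some 1) :
    rem t (shp k f) (Qsp k Q) ≤ rem (cat k t) f Q := by
  induction k generalizing f Q with
  | zero => exact le_rfl
  | succ k ih =>
    have h1 : rem t (shp (k + 1) f) (Qsp (k + 1) Q) ≤ rem (cat k t) (sh f 1) (Qs Q 1) := by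
      refine ih fun i hi => ?_
      exact h (i + 1) (by omega)
    refine h1.trans ?_
    have h0 := h 0 (by omega)
    simp only [List.replicate_zero] at h0
    rcases h0 with h0 | h0
    · by_cases hQ : [] ∈ Q
      · rw [cat_rem_ask h0 hQ]
      · rw [cat_rem_unask h0 hQ]
        omega
    · rw [cat_rem_some h0]

lemma spineB {k : ℕ} {t : Tree} {f : List ℕ → Option ℕ} {Q : Finset (List ℕ)}
    (h : ∀ i < k, f (List.replicate i 1) = none) :
    ∃ u v, u + v = k ∧ v + (Qsp k Q).card ≤ Q.card ∧
      rem t (shp k f) (Qsp k Q) + u ≤ rem (cat k t) f Q := by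
  induction k generalizing f Q with
  | zero => exact ⟨0, 0, rfl, by simp [Qsp], le_rfl⟩
  | succ k ih =>
    obtain ⟨u, v, h1, h2, h3⟩ := ih (f := sh f 1) (Q := Qs Q 1)
      fun i hi => h (i + 1) (by omega)
    have h0 := h 0 (by omega)
    simp only [List.replicate_zero] at h0
    have hc := card_Qs Q 2
    rw [Fin.sum_univ_two] at hc
    simp only [Fin.val_zero, Fin.val_one] at hc
    by_cases hQ : [] ∈ Q
    · refine ⟨u, v + 1, by omega, ?_, ?_⟩
      · rw [if_pos hQ] at hc
        simp only [Qsp]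
        omega
      · rw [cat_rem_ask h0 hQ]
        exact h3
    · refine ⟨u + 1, v, by omega, ?_, ?_⟩
      · simp only [Qsp]
        omega
      · rw [cat_rem_unask h0 hQ]
        simp only [shp, Qsp]
        omega

lemma shp_ν (k : ℕ) : shp k ν = ν := by
  funext a
  rw [shp_apply]
  rfl

lemma cnt_cat (k : ℕ) (t : Tree) : cnt (cat k t) ν = k + cnt t ν := by
  induction k with
  | zero => simp [cat]
  | succ k ih =>
    rw [← rem_empty, cat_rem_unask rfl (by simp), Qs_empty, sh_ν, rem_empty, ih]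
    omega

lemma cnt_leaf (f : List ℕ → Option ℕ) : cnt leaf f = 0 := by
  rw [← rem_empty, rem_leaf]

lemma q3_eq (N n : ℕ) : q3 N n = 2 * (q2 N n + L N n + 2) + 1 := rfl

lemma cnt_E {N n c : ℕ} (hc : c ≤ L N n + 1) : cnt (E N n c) ν = q3 N n + 1 - c := by
  unfold E
  rw [cnt_none rfl, Fin.sum_univ_two]
  have h3 := q3_eq N n
  simp only [sh_ν, if_true, Fin.one_eq_zero_iff, OfNat.ofNat_ne_one, if_false, cnt_cat, cnt_leaf]
  simp only [le_refl, if_true]
  omega

lemma E_lower {N n c u : ℕ} {Q : Finset (List ℕ)} (hc : c ≤ u) (hu : u ≤ L N n)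
    (h : rem (E N n c) ν Q ≤ q3 N n - u) : 1 ≤ Q.card := by
  by_contra hQ
  have : Q = ∅ := by
    rw [← Finset.card_eq_zero]
    omega
  subst this
  rw [rem_empty, cnt_E (by omega)] at h
  have h3 := q3_eq N n
  omega

lemma E0_big {N n : ℕ} {Q : Finset (List ℕ)}
    (h : rem (E N n 0) ν Q ≤ q2 N n + L N n + 2) : q2 N n < Q.card := by
  have h1 := (child_le (c := fun i : Fin 2 => if i = 0 then cat (q3 N n - L N n - 1) leaf
    else cat (L N n + 1 - 0) leaf) (f := ν) (Q := Q) rfl 0).trans h
  simp only [if_true, sh_ν, Fin.val_zero] at h1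
  obtain ⟨u, v, h2, h3, h4⟩ := spineB (k := q3 N n - L N n - 1) (t := leaf) (f := ν)
    (Q := Qs Q 0) (fun _ _ => rfl)
  have h5 := card_Qs_le Q 0
  have h6 := q3_eq N n
  omega

/-- The threshold of a child. -/
def thr {N n : ℕ} (S : Fin n → Finset (Fin N × Bool)) (j : Fin N) (b : Bool) (i : Fin n) : ℕ :=
  if (j, b) ∈ S i then i * N else (i + 1) * N

lemma X_eq {N n : ℕ} (S : Fin n → Finset (Fin N × Bool)) (j : Fin N) (b : Bool) :
    ∃ c : Fin (n + 2) → Tree, X S j b = .node (n + 2) c ∧
      (∀ i : Fin n, c i.castSucc.castSucc = E N n (thr S j b i)) ∧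
      c (Fin.last n).castSucc = E N n 0 ∧ c (Fin.last (n + 1)) = E N n 0 := by
  refine ⟨_, rfl, ?_, ?_, ?_⟩
  · intro i
    simp [thr]
  · simp
  · simp

lemma X_big {N n : ℕ} (S : Fin n → Finset (Fin N × Bool)) (j : Fin N) (b : Bool)
    {Q : Finset (List ℕ)} (h : rem (X S j b) ν Q ≤ q2 N n + L N n + 2) : q2 N n < Q.card := by
  obtain ⟨c, h1, -, -, h2⟩ := X_eq S j b
  rw [h1] at h
  have h3 := (child_le (c := c) (f := ν) (Q := Q) rfl (Fin.last (n + 1))).trans h
  rw [h2] at h3
  exact (E0_big h3).trans_le (card_Qs_le _ _)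

lemma cnt_X_big {N n : ℕ} (S : Fin n → Finset (Fin N × Bool)) (j : Fin N) (b : Bool) :
    q3 N n < cnt (X S j b) ν := by
  obtain ⟨c, h1, -, -, h2⟩ := X_eq S j b
  rw [h1]
  have h3 := child_le (c := c) (f := ν) (Q := ∅) rfl (Fin.last (n + 1))
  rw [h2, Qs_empty, sh_ν, rem_empty, rem_empty, cnt_E (by omega)] at h3
  omega

lemma X_lower {N n u : ℕ} (S : Fin n → Finset (Fin N × Bool)) (j : Fin N) (b : Bool)
    {Q : Finset (List ℕ)} (hu : u ≤ L N n) (h : rem (X S j b) ν Q ≤ q3 N n - u)
    (hQ : Q.card ≤ q2 N n) :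
    3 + ∑ i : Fin n, (if thr S j b i ≤ u then 1 else 0) ≤ Q.card := by
  obtain ⟨c, h1, h2, h3, h4⟩ := X_eq S j b
  rw [h1] at h
  have h6 := q3_eq N n
  by_cases hm : [] ∈ Q
  · have hc := card_Qs Q (n + 2)
    rw [if_pos hm, Fin.sum_univ_castSucc, Fin.sum_univ_castSucc] at hc
    have hch := fun i => (child_le (c := c) (f := ν) (Q := Q) rfl i).trans h
    have h5 := hch (Fin.last n).castSucc
    rw [h3] at h5
    have h5' := E_lower (Nat.zero_le _) hu h5
    have h7 := hch (Fin.last (n + 1))
    rw [h4] at h7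
    have h7' := E_lower (Nat.zero_le _) hu h7
    have h8 : ∑ i : Fin n, (if thr S j b i ≤ u then 1 else 0)
        ≤ ∑ i : Fin n, (Qs Q (i.castSucc.castSucc : Fin (n + 2))).card := by
      refine Finset.sum_le_sum fun i _ => ?_
      split_ifs with hi
      · have h9 := hch i.castSucc.castSucc
        rw [h2] at h9
        exact E_lower hi hu h9
      · exact Nat.zero_le _
    omega
  · exfalso
    have h5 := (two_children (c := c) (f := ν) (Q := Q) rfl hm (Fin.last n).castSucc
      (Fin.last (n + 1)) (Fin.castSucc_lt_last _).ne).trans h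
    rw [h3, h4] at h5
    simp only [sh_ν] at h5
    rcases le_or_gt (rem (E N n 0) ν (Qs Q ((Fin.last n).castSucc : Fin (n + 2))))
        (q2 N n + L N n + 2) with h7 | h7
    · have := (E0_big h7).trans_le (card_Qs_le _ _)
      omega
    · rcases le_or_gt (rem (E N n 0) ν (Qs Q (Fin.last (n + 1) : Fin (n + 2))))
        (q2 N n + L N n + 2) with h8 | h8
      · have := (E0_big h8).trans_le (card_Qs_le _ _)
        omega
      · omega

lemma need_leaf (f : List ℕ → Option ℕ) (θ : ℕ) : Need leaf f θ 0 :=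
  ⟨∅, by simp, by simp, by rw [rem_leaf]; omega⟩

lemma cat_ask {k : ℕ} {t : Tree} {f : List ℕ → Option ℕ} {θ q : ℕ} (h : f [] = none)
    (h' : Need (cat k t) (sh f 1) θ q) : Need (cat (k + 1) t) f θ (q + 1) := by
  have := need_ask (n := 2) (c := fun i => if i = 0 then leaf else cat k t) (f := f) (θ := θ)
    (k := fun i => if i = 0 then 0 else q) h (by omega) (by
      intro i
      fin_cases i
      · exact need_leaf _ _
      · exact h')
  rw [Fin.sum_univ_two] at this
  refine Need.mono this le_rfl ?_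
  simp
  omega

lemma cat_unask {k : ℕ} {t : Tree} {f : List ℕ → Option ℕ} {θ q : ℕ} (h : f [] = none)
    (h' : Need (cat k t) (sh f 1) θ q) : Need (cat (k + 1) t) f (θ + 1) q := by
  have := need_unask (n := 2) (c := fun i => if i = 0 then leaf else cat k t) (f := f)
    (θ := fun i => if i = 0 then 0 else θ)
    (k := fun i => if i = 0 then 0 else q) h (by
      intro i
      fin_cases i
      · exact need_leaf _ _
      · exact h')
  rw [Fin.sum_univ_two, Fin.sum_univ_two] at this
  refine Need.mono this ?_ ?_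
  · simp
    omega
  · simp

lemma cat_upper (s u : ℕ) {t : Tree} {f : List ℕ → Option ℕ} {θ q : ℕ}
    (h : ∀ i < s + u, f (List.replicate i 1) = none)
    (h' : Need t (shp (s + u) f) θ q) : Need (cat (s + u) t) f (θ + u) (q + s) := by
  induction s generalizing f with
  | zero =>
    induction u generalizing f with
    | zero => exact h'
    | succ u ih =>
      have h0 := h 0 (by omega)
      simp only [List.replicate_zero] at h0
      have := ih (f := sh f 1) (fun i hi => h (i + 1) (by omega)) (by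
        have e : 0 + (u + 1) = (0 + u) + 1 := by omega
        rw [e] at h'
        exact h')
      have e : 0 + (u + 1) = (0 + u) + 1 := by omega
      rw [e]
      exact cat_unask h0 this
  | succ s ih =>
    have h0 := h 0 (by omega)
    simp only [List.replicate_zero] at h0
    have e : s + 1 + u = (s + u) + 1 := by omega
    rw [e] at h' ⊢
    exact cat_ask h0 (ih (f := sh f 1) (fun i hi => h (i + 1) (by omega)) h')

lemma E_upper {N n c u : ℕ} (hc : c ≤ L N n + 1) (hu : u ≤ L N n) :
    Need (E N n c) ν (q3 N n - u) (if c ≤ u then 1 else 0) := by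
  have h3 := q3_eq N n
  split_ifs with h
  · have := need_ask (n := 2) (c := fun i : Fin 2 => if i = 0 then cat (q3 N n - L N n - 1) leaf
      else cat (L N n + 1 - c) leaf) (f := ν) (θ := q3 N n - u) (k := fun _ => 0) rfl (by omega) (by
        intro i
        refine (need_zero _ _).mono ?_ le_rfl
        rw [sh_ν]
        fin_cases i
        · simp only [Fin.zero_eta, if_true, cnt_cat, cnt_leaf]
          omega
        · have : cnt (cat (L N n + 1 - c) leaf) ν ≤ q3 N n - u := by
            rw [cnt_cat, cnt_leaf]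
            omega
          exact this)
    exact this
  · refine (need_zero _ _).mono ?_ le_rfl
    rw [cnt_E hc]
    omega

lemma thr_le {N n : ℕ} (S : Fin n → Finset (Fin N × Bool)) (j : Fin N) (b : Bool)
    (i : Fin n) : thr S j b i ≤ L N n + 1 := by
  have h1 : (i + 1 : ℕ) * N ≤ n * N := Nat.mul_le_mul_right _ i.2
  have h2 : (i : ℕ) * N ≤ (i + 1) * N := Nat.mul_le_mul_right _ (by omega)
  unfold thr L
  split_ifs <;> omega

lemma X_upper {N n u : ℕ} (S : Fin n → Finset (Fin N × Bool)) (j : Fin N) (b : Bool)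
    (hu : u ≤ L N n) :
    Need (X S j b) ν (q3 N n - u) (3 + ∑ i : Fin n, (if thr S j b i ≤ u then 1 else 0)) := by
  obtain ⟨c, h1, h2, h3, h4⟩ := X_eq S j b
  rw [h1]
  have := need_ask (n := n + 2) (c := c) (f := ν) (θ := q3 N n - u)
    (k := Fin.snoc (Fin.snoc (fun i : Fin n => if thr S j b i ≤ u then 1 else 0) 1) 1)
    rfl (by omega) (by
      intro i
      rw [sh_ν]
      refine Fin.lastCases ?_ (fun i => ?_) i
      · rw [Fin.snoc_last, h4]
        simpa using E_upper (N := N) (n := n) (c := 0) (u := u) (by omega) hu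
      · rw [Fin.snoc_castSucc]
        refine Fin.lastCases ?_ (fun i => ?_) i
        · rw [Fin.snoc_last, h3]
          simpa using E_upper (N := N) (n := n) (c := 0) (u := u) (by omega) hu
        · rw [Fin.snoc_castSucc, h2]
          exact E_upper (thr_le S j b i) hu)
  refine this.mono le_rfl ?_
  rw [Fin.sum_univ_castSucc, Fin.sum_univ_castSucc]
  simp only [Fin.snoc_castSucc, Fin.snoc_last]
  omega

lemma deg_cat (k : ℕ) (t : Tree) (a : List ℕ) :
    (cat k t).deg (List.replicate k 1 ++ a) = t.deg a := by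
  induction k with
  | zero => simp [cat]
  | succ k ih =>
    rw [List.replicate_succ, List.cons_append, cat_succ]
    have := deg_cons 2 (fun i => if i = 0 then leaf else cat k t) 1 (List.replicate k 1 ++ a)
    simp only [Fin.val_one] at this
    rw [this]
    simpa using ih

lemma deg_cat_spine {k : ℕ} (t : Tree) {i : ℕ} (hi : i < k) :
    (cat k t).deg (List.replicate i 1) = 2 := by
  induction k generalizing i with
  | zero => omega
  | succ k ih =>
    rw [cat_succ]
    rcases i with _ | i
    · rfl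
    · rw [List.replicate_succ]
      have := deg_cons 2 (fun i => if i = 0 then leaf else cat k t) 1 (List.replicate i 1)
      simp only [Fin.val_one] at this
      rw [this]
      simpa using ih (by omega)

/-- The vertex of the variable `j`. -/
def av (N n j : ℕ) : List ℕ := List.replicate (L N n) 1 ++ [j]

/-- The questions of the first round. -/
def Q1s (N n : ℕ) : Finset (List ℕ) := univ.image fun j : Fin N => av N n j

lemma mem_Q1s {N n : ℕ} {a : List ℕ} : a ∈ Q1s N n ↔ ∃ j : Fin N, av N n j = a := by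
  simp [Q1s]

lemma length_av (N n j : ℕ) : (av N n j).length = L N n + 1 := by simp [av]

lemma av_inj {N n i j : ℕ} (h : av N n i = av N n j) : i = j := by
  simpa [av] using h

lemma card_Q1s (N n : ℕ) : (Q1s N n).card = N := by
  unfold Q1s
  rw [Finset.card_image_of_injective, Finset.card_univ, Fintype.card_fin]
  intro i j h
  exact Fin.ext (av_inj h)

lemma deg_av {N n : ℕ} (S : Fin n → Finset (Fin N × Bool)) (j : Fin N) :
    (T S).deg (av N n j) = 2 * m N n := by
  unfold T av
  rw [deg_cat, deg_cons]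
  rfl

/-- The state after the first round in which all the vertices of the variables were asked. -/
structure Good {N n : ℕ} (f : List ℕ → Option ℕ) (β : Fin N → Bool) : Prop where
  h1 : ∀ i ≤ L N n, f (List.replicate i 1) = none
  h2 : ∀ j : Fin N, ∃ i : Fin (2 * m N n), f (av N n j) = some (i : ℕ) ∧
    decide ((i : ℕ) < m N n) = β j
  h3 : ∀ (j : Fin N) (i : ℕ) (a : List ℕ),
    f (List.replicate (L N n) 1 ++ (j : ℕ) :: i :: a) = none

lemma good_upd {N n : ℕ} {g : List ℕ → ℕ} (hg : ∀ j : Fin N, g (av N n j) < 2 * m N n) :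
    Good (n := n) (upd ν (Q1s N n) g) (fun j : Fin N => decide (g (av N n j) < m N n)) := by
  refine ⟨?_, ?_, ?_⟩
  · intro i hi
    have : List.replicate i 1 ∉ Q1s N n := by
      intro h
      obtain ⟨j, hj⟩ := mem_Q1s.1 h
      have := congrArg List.length hj
      rw [length_av, List.length_replicate] at this
      omega
    simp [upd, this, ν]
  · intro j
    refine ⟨⟨g (av N n j), hg j⟩, ?_, rfl⟩
    have : av N n j ∈ Q1s N n := mem_Q1s.2 ⟨j, rfl⟩
    simp [upd, this]
  · intro j i a
    have : List.replicate (L N n) 1 ++ (j : ℕ) :: i :: a ∉ Q1s N n := by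
      intro h
      obtain ⟨j', hj⟩ := mem_Q1s.1 h
      have := congrArg List.length hj
      rw [length_av] at this
      simp at this
    simp [upd, this, ν]

lemma sum_lt (n : ℕ) (c : Fin n) : ∑ i : Fin n, (if i < c then 1 else 0) = (c : ℕ) := by
  rw [Finset.sum_boole]
  have : (univ.filter fun i : Fin n => i < c) = Finset.Iio c := by
    ext i; simp
  rw [this, Fin.card_Iio]
  rfl

lemma thr_lower {N n u : ℕ} (S : Fin n → Finset (Fin N × Bool)) (j : Fin N) (b : Bool)
    (c : Fin n) (hu : (c : ℕ) * N ≤ u) :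
    (c : ℕ) + (if (j, b) ∈ S c then 1 else 0)
      ≤ ∑ i : Fin n, (if thr S j b i ≤ u then 1 else 0) := by
  have h1 : (c : ℕ) + (if (j, b) ∈ S c then 1 else 0)
      = ∑ i : Fin n, ((if i < c then 1 else 0)
        + (if i = c then (if (j, b) ∈ S c then 1 else 0) else 0)) := by
    rw [Finset.sum_add_distrib, sum_lt, Finset.sum_ite_eq' univ c]
    simp
  rw [h1]
  refine Finset.sum_le_sum fun i _ => ?_
  have h2 : (i : ℕ) * N ≤ (i + 1) * N := Nat.mul_le_mul_right _ (by omega)
  rcases lt_trichotomy i c with h | h | h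
  · have h3 : (i + 1 : ℕ) * N ≤ c * N := Nat.mul_le_mul_right _ h
    have h4 : thr S j b i ≤ u := by
      unfold thr
      split_ifs <;> omega
    simp [h, h.ne, h4]
  · subst h
    by_cases hS : (j, b) ∈ S i
    · have h4 : thr S j b i ≤ u := by
        unfold thr
        rw [if_pos hS]
        exact hu
      simp [h4, hS]
    · simp [hS]
  · simp [h.not_gt, h.ne']

lemma thr_upper {N n u : ℕ} (S : Fin n → Finset (Fin N × Bool)) (j : Fin N) (b : Bool)
    (c : Fin n) (hu : u < (c + 1 : ℕ) * N) (hS : (j, b) ∉ S c) :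
    ∑ i : Fin n, (if thr S j b i ≤ u then 1 else 0) ≤ (c : ℕ) := by
  rw [← sum_lt n c]
  refine Finset.sum_le_sum fun i _ => ?_
  rcases lt_trichotomy i c with h | h | h
  · rw [if_pos h]
    split_ifs <;> simp
  · subst h
    have : ¬ thr S j b i ≤ u := by
      unfold thr
      rw [if_neg hS]
      omega
    simp [this]
  · have h3 : (c + 1 : ℕ) * N ≤ i * N := Nat.mul_le_mul_right _ h
    have h2 : (i : ℕ) * N ≤ (i + 1) * N := Nat.mul_le_mul_right _ (by omega)
    have : ¬ thr S j b i ≤ u := by
      unfold thr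
      split_ifs <;> omega
    simp [this]

/-- If the assignment given by the answers in the first round satisfies all clauses, then
`q2` questions are not enough in the second round. -/
lemma lowerB {N n : ℕ} (hN : 2 ≤ N) (hn : 1 ≤ n) (S : Fin n → Finset (Fin N × Bool))
    {f : List ℕ → Option ℕ} {β : Fin N → Bool} (hf : Good (n := n) f β)
    (hβ : ∀ c, ∃ j, (j, β j) ∈ S c) : ¬ Need (T S) f (q3 N n) (q2 N n) := by
  rintro ⟨Q, hQ1, -, hQ2⟩
  have hq3 := q3_eq N n
  obtain ⟨u, v, h1, h2, h3⟩ := spineB (k := L N n) (t := .node N fun j => A S j) (f := f)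
    (Q := Q) (fun i hi => hf.h1 i hi.le)
  have h3' := h3.trans hQ2
  have hroot : (shp (L N n) f) [] = none := by
    rw [shp_apply, List.append_nil]
    exact hf.h1 _ le_rfl
  -- the children of the vertices of the variables
  have hA : ∀ j : Fin N, ∃ i : ℕ,
      rem (A S j) (sh (shp (L N n) f) j) (Qs (Qsp (L N n) Q) j)
        = rem (X S j (β j)) ν (Qs (Qs (Qsp (L N n) Q) j) i) := by
    intro j
    obtain ⟨i, hi, hb⟩ := hf.h2 j
    refine ⟨i, ?_⟩
    have hr : sh (shp (L N n) f) j [] = some (i : ℕ) := by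
      rw [sh, shp_apply]
      exact hi
    unfold A
    rw [rem_some i hr, hb]
    congr 1
    funext a
    rw [sh, sh, shp_apply]
    exact hf.h3 j i a
  have hcQ : ∀ (j : Fin N) (i : ℕ), (Qs (Qs (Qsp (L N n) Q) j) i).card ≤ q2 N n := fun j i =>
    ((card_Qs_le _ _).trans (card_Qs_le _ _)).trans ((card_Qsp_le _ _).trans hQ1)
  by_cases hm : [] ∈ Qsp (L N n) Q
  · have hc := card_Qs (Qsp (L N n) Q) N
    rw [if_pos hm] at hc
    -- the clause
    have hN0 : 0 < N := by omega
    have hu : u < n * N := by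
      have : 0 < n * N := Nat.mul_pos (by omega) hN0
      unfold L at h1
      omega
    let c : Fin n := ⟨u / N, (Nat.div_lt_iff_lt_mul hN0).2 hu⟩
    have hcu : (c : ℕ) * N ≤ u := Nat.div_mul_le_self u N
    have hcu' : u < (c + 1 : ℕ) * N := by
      exact Nat.lt_mul_of_div_lt (Nat.lt_succ_self _) hN0
    obtain ⟨j₀, hj₀⟩ := hβ c
    have hj : ∀ j : Fin N, 3 + (c : ℕ) + (if j = j₀ then 1 else 0)
        ≤ (Qs (Qsp (L N n) Q) j).card := by
      intro j
      obtain ⟨i, hi⟩ := hA j
      have h4 := child_le (c := fun j => A S j) (Q := Qsp (L N n) Q) hroot j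
      have h5 : rem (X S j (β j)) ν (Qs (Qs (Qsp (L N n) Q) j) i) ≤ q3 N n - u := by
        rw [← hi]
        omega
      have h6 := X_lower S j (β j) (by omega : u ≤ L N n) h5 (hcQ j i)
      have h7 := thr_lower S j (β j) c hcu
      have h8 := card_Qs_le (Qs (Qsp (L N n) Q) j) i
      have h9 : (if j = j₀ then 1 else 0) ≤ (if (j, β j) ∈ S c then 1 else 0) := by
        by_cases h : j = j₀
        · subst h
          simp [hj₀]
        · simp [h]
      omega
    have hs := Finset.sum_le_sum fun j (_ : j ∈ (univ : Finset (Fin N))) => hj j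
    rw [Finset.sum_add_distrib, Finset.sum_const, Finset.card_univ, Fintype.card_fin,
      Finset.sum_ite_eq' univ j₀] at hs
    simp only [Finset.mem_univ, if_true, smul_eq_mul] at hs
    have e1 : N * (3 + (c : ℕ)) = 3 * N + c * N := by ring
    have e2 : ((c : ℕ) + 1) * N = c * N + N := by ring
    have e3 : q2 N n = n * N + 2 * N + 1 := by unfold q2; ring
    have e4 : L N n = n * N - 1 := rfl
    have e5 : 1 ≤ n * N := Nat.mul_pos (by omega) hN0
    rw [e1] at hs
    rw [e2] at hcu'
    omega
  · have h4 := two_children (c := fun j => A S j) hroot hm ⟨0, by omega⟩ ⟨1, by omega⟩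
      (by simp)
    obtain ⟨i0, hi0⟩ := hA ⟨0, by omega⟩
    obtain ⟨i1, hi1⟩ := hA ⟨1, by omega⟩
    have c0 := hcQ ⟨0, by omega⟩ i0
    have c1 := hcQ ⟨1, by omega⟩ i1
    rw [hi0, hi1] at h4
    rcases le_or_gt (rem (X S ⟨0, by omega⟩ (β ⟨0, by omega⟩)) ν
        (Qs (Qs (Qsp (L N n) Q) (⟨0, by omega⟩ : Fin N)) i0)) (q2 N n + L N n + 2) with h7 | h7
    · have := X_big S _ _ h7
      omega
    · rcases le_or_gt (rem (X S ⟨1, by omega⟩ (β ⟨1, by omega⟩)) ν
        (Qs (Qs (Qsp (L N n) Q) (⟨1, by omega⟩ : Fin N)) i1)) (q2 N n + L N n + 2) with h8 | h8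
      · have := X_big S _ _ h8
        omega
      · omega

/-- If the assignment given by the answers in the first round does not satisfy the clause `c`,
then `q2` questions are enough in the second round. -/
lemma upperB {N n : ℕ} (hN : 1 ≤ N) (S : Fin n → Finset (Fin N × Bool))
    {f : List ℕ → Option ℕ} {β : Fin N → Bool} (hf : Good (n := n) f β)
    (c : Fin n) (hc : ∀ j, (j, β j) ∉ S c) : Need (T S) f (q3 N n) (q2 N n) := by
  have hq3 := q3_eq N n
  have e2 : ((c : ℕ) + 1) * N = c * N + N := by ring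
  have e3 : q2 N n = n * N + 2 * N + 1 := by unfold q2; ring
  have e4 : L N n = n * N - 1 := rfl
  have e5 : (c + 1 : ℕ) * N ≤ n * N := Nat.mul_le_mul_right _ c.2
  have e6 : N * (3 + (c : ℕ)) = 3 * N + c * N := by ring
  obtain ⟨u, hu⟩ : ∃ u, u = c * N + N - 1 := ⟨_, rfl⟩
  have huL : u ≤ L N n := by omega
  have hroot : (shp (L N n) f) [] = none := by
    rw [shp_apply, List.append_nil]
    exact hf.h1 _ le_rfl
  have hz : Need (.node N fun j => A S j) (shp (L N n) f) (q3 N n - u)
      (1 + ∑ _j : Fin N, (3 + (c : ℕ))) := by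
    refine need_ask hroot (by omega) fun j => ?_
    obtain ⟨i, hi, hb⟩ := hf.h2 j
    have hr : sh (shp (L N n) f) j [] = some (i : ℕ) := by
      rw [sh, shp_apply]
      exact hi
    unfold A
    refine need_some i hr ?_
    rw [hb]
    have hν : sh (sh (shp (L N n) f) j) i = ν := by
      funext a
      rw [sh, sh, shp_apply]
      exact hf.h3 j i a
    rw [hν]
    refine (X_upper S j (β j) huL).mono le_rfl ?_
    exact Nat.add_le_add_left (thr_upper S j (β j) c (by omega) (hc j)) 3
  have e7 : L N n = (L N n - u) + u := by omega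
  have := cat_upper (L N n - u) u (t := .node N fun j => A S j) (f := f) (θ := q3 N n - u)
    (q := 1 + ∑ _j : Fin N, (3 + (c : ℕ))) (fun i hi => hf.h1 i (by omega)) (by
      rw [← e7]; exact hz)
  rw [← e7] at this
  refine this.mono (by omega) ?_
  rw [Finset.sum_const, Finset.card_univ, Fintype.card_fin, smul_eq_mul, e6]
  omega

/-- If a vertex of a variable is not asked in the first round, then Carole wins. -/
lemma caseA {N n : ℕ} (S : Fin n → Finset (Fin N × Bool)) {Q1 : Finset (List ℕ)} (j : Fin N)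
    (h1 : Q1.card ≤ N) (h2 : ∀ a ∈ Q1, 0 < (T S).deg a) (hj : av N n j ∉ Q1) :
    ∃ g : List ℕ → ℕ, (∀ a ∈ Q1, g a < (T S).deg a) ∧
      ¬ Need (T S) (upd ν Q1 g) (q3 N n) (q2 N n) := by
  let g : List ℕ → ℕ := fun a => if a = List.replicate (L N n) 1 then j else
    if a.length < L N n ∧ a = List.replicate a.length 1 then 1 else 0
  refine ⟨g, ?_, ?_⟩
  · intro a ha
    by_cases ha1 : a = List.replicate (L N n) 1
    · have e : g a = j := by simp [g, ha1]
      rw [e, ha1]
      have := deg_cat (L N n) (.node N fun j => A S j) []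
      rw [List.append_nil] at this
      unfold T
      rw [this]
      exact j.2
    · by_cases ha2 : a.length < L N n ∧ a = List.replicate a.length 1
      · have e : g a = 1 := by
          simp only [g]
          rw [if_neg ha1, if_pos ha2]
        rw [e, ha2.2]
        unfold T
        rw [deg_cat_spine _ ha2.1]
        omega
      · have e : g a = 0 := by
          simp only [g]
          rw [if_neg ha1, if_neg ha2]
        rw [e]
        exact h2 a ha
  · rintro ⟨Q, hQ1, -, hQ2⟩
    have hf : ∀ i < L N n, upd ν Q1 g (List.replicate i 1) = none ∨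
        upd ν Q1 g (List.replicate i 1) = some 1 := by
      intro i hi
      by_cases hm : List.replicate i 1 ∈ Q1
      · right
        have e : g (List.replicate i 1) = 1 := by
          simp only [g]
          rw [if_neg, if_pos]
          · simpa using hi
          · intro h
            have := congrArg List.length h
            simp at this
            omega
        simp [upd, hm, e]
      · left
        simp [upd, hm, ν]
    have h3 := (spineA (t := .node N fun j => A S j) (Q := Q) hf).trans hQ2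
    have hz : rem (A S j) (sh (shp (L N n) (upd ν Q1 g)) j) (Qs (Qsp (L N n) Q) j) ≤ q3 N n := by
      by_cases hm : List.replicate (L N n) 1 ∈ Q1
      · have hr : shp (L N n) (upd ν Q1 g) [] = some (j : ℕ) := by
          rw [shp_apply, List.append_nil]
          have e : g (List.replicate (L N n) 1) = j := by simp [g]
          simp [upd, hm, e]
        rw [rem_some j hr] at h3
        exact h3
      · have hr : shp (L N n) (upd ν Q1 g) [] = none := by
          rw [shp_apply, List.append_nil]
          simp [upd, hm, ν]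
        exact (child_le (c := fun j => A S j) hr j).trans h3
    have hr : sh (shp (L N n) (upd ν Q1 g)) j [] = none := by
      rw [sh, shp_apply]
      have : List.replicate (L N n) 1 ++ [(j : ℕ)] ∉ Q1 := hj
      simp [upd, this, ν]
    have hch : ∀ i : Fin (2 * m N n), 1 ≤ (Qs (Qs (Qsp (L N n) Q1) j) i).card
        + (Qs (Qs (Qsp (L N n) Q) j) i).card := by
      intro i
      by_contra hne
      have c1 : Qs (Qs (Qsp (L N n) Q1) j) i = ∅ := by
        rw [← Finset.card_eq_zero]; omega
      have c2 : Qs (Qs (Qsp (L N n) Q) j) i = ∅ := by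
        rw [← Finset.card_eq_zero]; omega
      unfold A at hz
      have h4 := (child_le (c := fun i : Fin (2 * m N n) => X S j (decide ((i : ℕ) < m N n)))
        hr i).trans hz
      have hν : sh (sh (shp (L N n) (upd ν Q1 g)) j) i = ν := by
        funext a
        rw [sh, sh, shp_apply]
        have : List.replicate (L N n) 1 ++ (j : ℕ) :: (i : ℕ) :: a ∉ Q1 := by
          intro h
          have h5 := mem_Qs.2 (mem_Qs.2 (mem_Qsp.2 h))
          rw [c1] at h5
          simp at h5
        simp [upd, this, ν]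
      rw [c2, hν, rem_empty] at h4
      have := cnt_X_big S j (decide ((i : ℕ) < m N n))
      omega
    have hs := Finset.sum_le_sum fun i (_ : i ∈ (univ : Finset (Fin (2 * m N n)))) => hch i
    rw [Finset.sum_add_distrib, Finset.sum_const, Finset.card_univ, Fintype.card_fin,
      smul_eq_mul, mul_one] at hs
    have d1 := card_Qs (Qs (Qsp (L N n) Q1) j) (2 * m N n)
    have d2 := card_Qs (Qs (Qsp (L N n) Q) j) (2 * m N n)
    have d3 : (Qs (Qsp (L N n) Q1) j).card ≤ Q1.card := (card_Qs_le _ _).trans (card_Qsp_le _ _)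
    have d4 : (Qs (Qsp (L N n) Q) j).card ≤ Q.card := (card_Qs_le _ _).trans (card_Qsp_le _ _)
    have d5 : m N n = q2 N n + 1 + N := rfl
    omega

theorem correct {N n : ℕ} (hN : 2 ≤ N) (hn : 1 ≤ n) (S : Fin n → Finset (Fin N × Bool)) :
    PaulWins (T S) [N, q2 N n, q3 N n] (fun _ => none) ↔
      ¬ ∃ α : Fin N → Bool, ∀ c, ∃ j, (j, α j) ∈ S c := by
  rw [paulWins_three]
  constructor
  · rintro ⟨Q1, h1, h2, h3⟩ ⟨α, hα⟩
    by_cases hsub : ∀ j : Fin N, av N n j ∈ Q1
    · have hQ : Q1s N n = Q1 := by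
        refine Finset.eq_of_subset_of_card_le ?_ (by rw [card_Q1s]; exact h1)
        intro a ha
        obtain ⟨j, rfl⟩ := mem_Q1s.1 ha
        exact hsub j
      subst hQ
      have hm : 0 < m N n := by unfold m; omega
      let g : List ℕ → ℕ := fun a =>
        if h : a.getLastD 0 < N then (if α ⟨a.getLastD 0, h⟩ then 0 else m N n) else 0
      have hg : ∀ j : Fin N, g (av N n j) = if α j then 0 else m N n := by
        intro j
        have e : (av N n j).getLastD 0 = j := by simp [av]
        simp only [g]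
        rw [dif_pos (by rw [e]; exact j.2)]
        simp only [e]
      have hg' : ∀ j : Fin N, g (av N n j) < 2 * m N n := by
        intro j
        rw [hg]
        split_ifs <;> omega
      have hgood := good_upd (n := n) hg'
      refine lowerB hN hn S hgood ?_ (h3 g ?_)
      · intro c
        obtain ⟨j, hj⟩ := hα c
        refine ⟨j, ?_⟩
        have : (decide (g (av N n j) < m N n)) = α j := by
          rw [hg]
          cases α j <;> simp [hm]
        rw [this]
        exact hj
      · intro a ha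
        obtain ⟨j, rfl⟩ := mem_Q1s.1 ha
        rw [deg_av]
        exact hg' j
    · push Not at hsub
      obtain ⟨j, hj⟩ := hsub
      obtain ⟨g, hg1, hg2⟩ := caseA S j h1 h2 hj
      exact hg2 (h3 g hg1)
  · intro hunsat
    refine ⟨Q1s N n, (card_Q1s N n).le, ?_, ?_⟩
    · intro a ha
      obtain ⟨j, rfl⟩ := mem_Q1s.1 ha
      rw [deg_av]
      unfold m
      omega
    · intro g hg
      have hg' : ∀ j : Fin N, g (av N n j) < 2 * m N n := by
        intro j
        have := hg _ (mem_Q1s.2 ⟨j, rfl⟩)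
        rwa [deg_av] at this
      have hgood := good_upd (n := n) hg'
      have : ∃ c, ∀ j, (j, (fun j : Fin N => decide (g (av N n j) < m N n)) j) ∉ S c := by
        by_contra h
        push Not at h
        exact hunsat ⟨_, h⟩
      obtain ⟨c, hc⟩ := this
      exact upperB (by omega) S hgood c hc

/-! ## The size of the tree -/

lemma size_cat (k : ℕ) (t : Tree) : (cat k t).size = 2 * k + t.size := by
  induction k with
  | zero => simp [cat]
  | succ k ih =>
    rw [cat_succ, Tree.size, Fin.sum_univ_two]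
    simp only [if_true, Fin.one_eq_zero_iff, OfNat.ofNat_ne_one, if_false, ih]
    have : leaf.size = 1 := by simp [leaf, Tree.size]
    rw [this]
    ring

lemma size_leaf : leaf.size = 1 := by simp [leaf, Tree.size]

lemma size_E (N n c : ℕ) : (E N n c).size ≤ 2 * q3 N n + 3 := by
  unfold E
  rw [Tree.size, Fin.sum_univ_two]
  have h := q3_eq N n
  have h1 : ((fun i : Fin 2 => if i = 0 then cat (q3 N n - L N n - 1) leaf
      else cat (L N n + 1 - c) leaf) 0).size = 2 * (q3 N n - L N n - 1) + 1 := by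
    simp [size_cat, size_leaf]
  have h2 : ((fun i : Fin 2 => if i = 0 then cat (q3 N n - L N n - 1) leaf
      else cat (L N n + 1 - c) leaf) 1).size = 2 * (L N n + 1 - c) + 1 := by
    simp [size_cat, size_leaf]
  have h3 : (if (0 : Fin 2) = 0 then cat (q3 N n - L N n - 1) leaf
      else cat (L N n + 1 - c) leaf).size = 2 * (q3 N n - L N n - 1) + 1 := h1
  have h4 : (if (1 : Fin 2) = 0 then cat (q3 N n - L N n - 1) leaf
      else cat (L N n + 1 - c) leaf).size = 2 * (L N n + 1 - c) + 1 := h2
  rw [h3, h4]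
  omega

lemma size_X {N n : ℕ} (S : Fin n → Finset (Fin N × Bool)) (j : Fin N) (b : Bool) :
    (X S j b).size ≤ 1 + (n + 2) * (2 * q3 N n + 3) := by
  unfold X
  rw [Tree.size]
  refine Nat.add_le_add_left ?_ _
  refine (Finset.sum_le_card_nsmul univ _ (2 * q3 N n + 3) fun i _ => ?_).trans (by simp)
  split_ifs <;> exact size_E _ _ _

lemma size_T {N n : ℕ} (S : Fin n → Finset (Fin N × Bool)) :
    (T S).size ≤ 2 * L N n + (1 + N * (1 + 2 * m N n * (1 + (n + 2) * (2 * q3 N n + 3)))) := by
  unfold T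
  rw [size_cat, Tree.size]
  refine Nat.add_le_add_left (Nat.add_le_add_left ?_ _) _
  refine (Finset.sum_le_card_nsmul univ _
    (1 + 2 * m N n * (1 + (n + 2) * (2 * q3 N n + 3))) fun j _ => ?_).trans (by simp)
  unfold A
  rw [Tree.size]
  refine Nat.add_le_add_left ?_ _
  refine (Finset.sum_le_card_nsmul univ _ (1 + (n + 2) * (2 * q3 N n + 3)) fun i _ => ?_).trans
    (by simp)
  exact size_X _ _ _

lemma size_bound {N n : ℕ} (S : Fin n → Finset (Fin N × Bool)) :
    (T S).size ≤ 30 * (N + n + 3) ^ 6 := by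
  refine (size_T S).trans ?_
  obtain ⟨w, hw⟩ : ∃ w, w = N + n + 3 := ⟨_, rfl⟩
  have h1 : N ≤ w := by omega
  have h2 : n + 2 ≤ w := by omega
  have h3 : n + 3 ≤ w := by omega
  have hw3 : 3 ≤ w := by omega
  have hq2 : q2 N n ≤ w ^ 2 := by
    unfold q2
    rw [hw]
    nlinarith
  have hL : L N n ≤ w ^ 2 := by
    have : L N n ≤ n * N := Nat.sub_le _ _
    refine this.trans ?_
    rw [hw]
    nlinarith
  have hm : m N n ≤ w ^ 2 := by
    unfold m q2
    rw [hw]
    nlinarith
  have hw2 : 9 ≤ w ^ 2 := by nlinarith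
  have hq3 : 2 * q3 N n + 3 ≤ 10 * w ^ 2 := by
    have := q3_eq N n
    omega
  have hA : 1 + (n + 2) * (2 * q3 N n + 3) ≤ 11 * w ^ 3 := by
    have := Nat.mul_le_mul h2 hq3
    have h4 : w * (10 * w ^ 2) = 10 * w ^ 3 := by ring
    have h5 : 1 ≤ w ^ 3 := Nat.one_le_pow _ _ (by omega)
    omega
  have hB : 1 + 2 * m N n * (1 + (n + 2) * (2 * q3 N n + 3)) ≤ 23 * w ^ 5 := by
    have := Nat.mul_le_mul (Nat.mul_le_mul_left 2 hm) hA
    have h4 : 2 * w ^ 2 * (11 * w ^ 3) = 22 * w ^ 5 := by ring
    have h5 : 1 ≤ w ^ 5 := Nat.one_le_pow _ _ (by omega)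
    omega
  have hC := Nat.mul_le_mul h1 hB
  have h4 : w * (23 * w ^ 5) = 23 * w ^ 6 := by ring
  have h5 : 1 ≤ w ^ 6 := Nat.one_le_pow _ _ (by omega)
  have h6 : w ^ 2 ≤ w ^ 6 := Nat.pow_le_pow_right (by omega) (by omega)
  rw [← hw]
  omega

/-- **Main theorem.** The map `S ↦ (T S, [N, q2 N n, q3 N n])` reduces unsatisfiability of
propositional formulas in conjunctive normal form, with `N ≥ 2` variables and `n ≥ 1` clauses, to
the problem whether Paul wins a Question/Answer game with three rounds on a rooted tree. The tree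
has at most `30 * (N + n + 3) ^ 6` vertices and the numbers of questions are at most
`5 * (N + n + 3) ^ 2`. -/
theorem trees_hard {N n : ℕ} (hN : 2 ≤ N) (hn : 1 ≤ n) (S : Fin n → Finset (Fin N × Bool)) :
    (PaulWins (T S) [N, q2 N n, q3 N n] (fun _ => none) ↔
      ¬ ∃ α : Fin N → Bool, ∀ c, ∃ j, (j, α j) ∈ S c) ∧
    (T S).size ≤ 30 * (N + n + 3) ^ 6 ∧
    N ≤ 5 * (N + n + 3) ^ 2 ∧ q2 N n ≤ 5 * (N + n + 3) ^ 2 ∧ q3 N n ≤ 5 * (N + n + 3) ^ 2 := by
  refine ⟨correct hN hn S, size_bound S, ?_, ?_, ?_⟩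
  · nlinarith
  · unfold q2
    nlinarith
  · have h1 := q3_eq N n
    have h2 : L N n ≤ n * N := Nat.sub_le _ _
    have h3 : q2 N n = (n + 2) * N + 1 := rfl
    nlinarith

end Pool.Agent.Lib.MP_6e8fef_lc
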